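import Pool.Agent.Lib.MP_af3d17_nt_h68.Defs

/-!
Row N6. Consecutive zeros and indices.
-/

set_option autoImplicit false

namespace Pool.Agent.ZPD

open Filter Topology Metric Pool.Agent.ZP

private lemma eq_pt {ρ : ℂ} {u : ℝ} (h1 : ρ.re = 1 / 2) (h2 : ρ.im = u) : ρ = pt (1 / 2) u :=
  Complex.ext (by rw [pt_re]; exact h1) (by rw [pt_im]; exact h2)

private lemma zero_of_index {γ : ℕ → ℝ} (hγ : IsOrdinateSeq γ) {n : ℕ} {t : ℝ} (hf : Free t 5)
    (h : |γ n - t| ≤ 5) : riemannZeta (pt (1 / 2) (γ n)) = 0 ∧ 0 < γ n := by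
  obtain ⟨ρ, h1, h2⟩ := exists_zero_of_index hγ n
  have h3 := hf ρ h1 (by rw [h2]; exact h)
  rw [← eq_pt h3 h2]
  exact ⟨h1.1, h2 ▸ h1.2.2.2⟩

/-- a gap of the sequence near which all zeros are on the line is a gap of zeros of `ζ` -/
theorem gap_consecutive {γ : ℕ → ℝ} (hγ : IsOrdinateSeq γ) {n : ℕ} (hf : Free (γ n) 5)
    (h : γ n < γ (n + 1)) (h1 : γ (n + 1) - γ n ≤ 1) :
    riemannZeta (pt (1 / 2) (γ n)) = 0 ∧ riemannZeta (pt (1 / 2) (γ (n + 1))) = 0 ∧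
      ∀ u : ℝ, γ n < u → u < γ (n + 1) → riemannZeta (pt (1 / 2) u) ≠ 0 := by
  have h2 := zero_of_index hγ hf (n := n) (by rw [sub_self, abs_zero]; norm_num)
  have h3 := zero_of_index hγ hf (n := n + 1) (by rw [abs_of_pos (by linarith)]; linarith)
  refine ⟨h2.1, h3.1, fun u hu1 hu2 hu0 => ?_⟩
  obtain ⟨m, hm⟩ := index_of_zeta hγ (t := u) (by linarith [h2.2]) hu0
  have h4 : n < m := lt_index hγ (by rw [hm]; exact hu1)
  have h5 : m < n + 1 := lt_index hγ (by rw [hm]; exact hu2)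
  omega

/-- conversely two neighbouring zeros on the line are `γ n`, `γ (n+1)` for some `n`, if all zeros nearby
are on the line -/
theorem index_of_consecutive {γ : ℕ → ℝ} (hγ : IsOrdinateSeq γ) {a b t : ℝ} (ha : 0 < a) (hab : a < b)
    (hf : Free t 5) (hat : |a - t| ≤ 1) (hbt : |b - t| ≤ 1) (h1 : riemannZeta (pt (1 / 2) a) = 0)
    (h2 : riemannZeta (pt (1 / 2) b) = 0)
    (h3 : ∀ u : ℝ, a < u → u < b → riemannZeta (pt (1 / 2) u) ≠ 0) :
    ∃ n, γ n = a ∧ γ (n + 1) = b := by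
  obtain ⟨m, hm⟩ := index_of_zeta hγ ha h1
  obtain ⟨m', hm'⟩ := index_of_zeta hγ (ha.trans hab) h2
  obtain ⟨n, hn, hn2⟩ := Set.exists_max_image {k | γ k = a} id (finite_eq hγ a) ⟨m, hm⟩
  have hn' : γ n = a := hn
  refine ⟨n, hn', ?_⟩
  have h4 : γ (n + 1) ≠ a := by
    intro h
    have := hn2 (n + 1) h
    simp at this
  have h5 : a < γ (n + 1) := lt_of_le_of_ne (hn' ▸ hγ.mono (Nat.le_succ n)) (Ne.symm h4)
  have h6 : n < m' := lt_index hγ (by rw [hn', hm']; exact hab)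
  have h7 : γ (n + 1) ≤ b := hm' ▸ hγ.mono h6
  rcases eq_or_lt_of_le h7 with h8 | h8
  · exact h8
  · exfalso
    have ha' := abs_le.1 hat
    have hb' := abs_le.1 hbt
    have h9 := zero_of_index hγ hf (n := n + 1) (abs_le.2 ⟨by linarith, by linarith⟩)
    exact h3 _ h5 h8 h9.1

end Pool.Agent.ZPD
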