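import Pool.Agent.Lib.MP_af3d17_nt_h68.M1

/-!
Row M2. Imaginary part of the equation `Ph = 0`: neighbours on both sides.
-/

set_option autoImplicit false

namespace Pool.Agent.ZPD

open Filter Topology Metric Pool.Agent.ZP

private lemma normSq_line' (s : ℂ) (v : ℝ) :
    Complex.normSq (s - pt (1 / 2) v) = (s.re - 1 / 2) ^ 2 + (s.im - v) ^ 2 := by
  rw [Complex.normSq_apply]
  simp only [Complex.sub_re, Complex.sub_im, pt_re, pt_im]
  ring

private lemma im_term (s : ℂ) (v : ℝ) :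
    (1 / (s - pt (1 / 2) v)).im =
      -((s.im - v) / ((s.re - 1 / 2) ^ 2 + (s.im - v) ^ 2)) := by
  rw [one_div, Complex.inv_im, normSq_line', Complex.sub_im, pt_im, neg_div]

private lemma im_eq {k : ℕ} {y : Fin k → ℝ} {h : ℂ → ℂ} {s : ℂ} (h0 : Ph y h s = 0) :
    ∑ i, (s.im - y i) / ((s.re - 1 / 2) ^ 2 + (s.im - y i) ^ 2) = (h s).im := by
  have h1 := congrArg Complex.im h0
  rw [Ph, Complex.add_im, Complex.im_sum, Complex.zero_im] at h1
  simp only [im_term, Finset.sum_neg_distrib] at h1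
  linarith

/-- the common core: if one term is large, another one is large of the other sign -/
private lemma other_side {k : ℕ} {B x u : ℝ} (v : Fin k → ℝ) (hB : 1 ≤ B) (hk : (k : ℝ) ≤ B)
    (hx : 0 < x) (hxv : ∀ i, x ≤ 2 * B * v i ^ 2)
    (hsum : |∑ i, v i / (x ^ 2 + v i ^ 2)| ≤ B) (i : Fin k) (hi : v i = u) (hu : 0 < u)
    (hu2 : 4 * B * u ≤ 1) : ∃ j, v j < 0 ∧ -v j ≤ 4 * B * u := by
  by_contra hcon
  push Not at hcon
  have hv : ∀ j, v j ≠ 0 := by
    intro j hj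
    have := hxv j
    rw [hj] at this
    nlinarith
  -- the negative terms are small
  have hneg : ∀ j, -(1 / (4 * B * u)) ≤ min (v j / (x ^ 2 + v j ^ 2)) 0 := by
    intro j
    have hBu : 0 < 4 * B * u := by positivity
    refine le_min ?_ (by rw [neg_nonpos]; positivity)
    rcases lt_or_ge (v j) 0 with h | h
    · have h1 := hcon j h
      have h2 : 0 < x ^ 2 + v j ^ 2 := by positivity
      rw [neg_le, ← neg_div, div_le_div_iff₀ h2 hBu]
      nlinarith [mul_le_mul_of_nonneg_left h1.le (neg_nonneg.2 h.le)]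
    · have : 0 ≤ v j / (x ^ 2 + v j ^ 2) := by positivity
      have h3 : 0 ≤ 1 / (4 * B * u) := by positivity
      linarith
  have hxu : x ≤ u / 2 := by
    have := hxv i
    rw [hi] at this
    nlinarith
  have hterm : 1 / (2 * u) < v i / (x ^ 2 + v i ^ 2) := by
    rw [hi, div_lt_div_iff₀ (by positivity) (by positivity)]
    nlinarith
  -- split the sum
  have hsplit : ∑ j, v j / (x ^ 2 + v j ^ 2) =
      ∑ j, max (v j / (x ^ 2 + v j ^ 2)) 0 + ∑ j, min (v j / (x ^ 2 + v j ^ 2)) 0 := by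
    rw [← Finset.sum_add_distrib]
    refine Finset.sum_congr rfl fun j _ => ?_
    rw [max_add_min, add_zero]
  have h1 : 1 / (2 * u) < ∑ j, max (v j / (x ^ 2 + v j ^ 2)) 0 := by
    refine lt_of_lt_of_le hterm ((le_max_left _ 0).trans ?_)
    exact Finset.single_le_sum (f := fun j => max (v j / (x ^ 2 + v j ^ 2)) 0)
      (fun j _ => le_max_right _ _) (Finset.mem_univ i)
  have h2 : -(1 / (4 * u)) ≤ ∑ j, min (v j / (x ^ 2 + v j ^ 2)) 0 := by
    have h3 : ∑ _j : Fin k, (-(1 / (4 * B * u))) ≤ ∑ j, min (v j / (x ^ 2 + v j ^ 2)) 0 :=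
      Finset.sum_le_sum fun j _ => hneg j
    rw [Finset.sum_const, Finset.card_univ, Fintype.card_fin, nsmul_eq_mul] at h3
    refine le_trans ?_ h3
    rw [mul_neg, neg_le_neg_iff]
    calc (k : ℝ) * (1 / (4 * B * u)) ≤ B * (1 / (4 * B * u)) := by gcongr
      _ = 1 / (4 * u) := by field_simp
  have h4 := (abs_le.1 hsum).2
  rw [hsplit] at h4
  have h5 : 1 / (2 * u) = 1 / (4 * u) + 1 / (4 * u) := by field_simp; norm_num
  have h6 : B ≤ 1 / (4 * u) := by
    rw [le_div_iff₀ (by positivity)]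
    linarith
  linarith

theorem mod_above {B κ e t : ℝ} {k : ℕ} {y : Fin k → ℝ} {h : ℂ → ℂ} (hm : Mod B κ e t y h) {s : ℂ}
    (hs : Reg e t s) (hx : |s.re - 1 / 2| * (2 * B) ≤ 1) (hne : ∀ i, s ≠ pt (1 / 2) (y i))
    (h0 : Ph y h s = 0) (i : Fin k) (hi : y i < s.im) (hi2 : 4 * B * (s.im - y i) ≤ 1) :
    ∃ j, s.im < y j ∧ y j - s.im ≤ 4 * B * (s.im - y i) := by
  obtain ⟨h1, h2⟩ := mod_loc hm hs hx hne h0
  have hbd := (Complex.abs_im_le_norm _).trans (hm.bd s hs)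
  obtain ⟨j, h3, h4⟩ := other_side (fun i => s.im - y i) hm.hB hm.hk h1 h2
    (by rw [im_eq h0]; exact hbd) i rfl (by linarith) hi2
  exact ⟨j, by linarith, by linarith⟩

theorem mod_below {B κ e t : ℝ} {k : ℕ} {y : Fin k → ℝ} {h : ℂ → ℂ} (hm : Mod B κ e t y h) {s : ℂ}
    (hs : Reg e t s) (hx : |s.re - 1 / 2| * (2 * B) ≤ 1) (hne : ∀ i, s ≠ pt (1 / 2) (y i))
    (h0 : Ph y h s = 0) (i : Fin k) (hi : s.im < y i) (hi2 : 4 * B * (y i - s.im) ≤ 1) :
    ∃ j, y j < s.im ∧ s.im - y j ≤ 4 * B * (y i - s.im) := by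
  obtain ⟨h1, h2⟩ := mod_loc hm hs hx hne h0
  have hbd := (Complex.abs_im_le_norm _).trans (hm.bd s hs)
  obtain ⟨j, h3, h4⟩ := other_side (fun i => y i - s.im) hm.hB hm.hk h1
    (fun i => by
      have := h2 i
      have e1 : (y i - s.im) ^ 2 = (s.im - y i) ^ 2 := by ring
      rw [e1]
      exact this)
    (by
      have e1 : ∑ i, (y i - s.im) / ((s.re - 1 / 2) ^ 2 + (y i - s.im) ^ 2) = -(h s).im := by
        rw [← im_eq h0, ← Finset.sum_neg_distrib]
        refine Finset.sum_congr rfl fun i _ => ?_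
        have e2 : (y i - s.im) ^ 2 = (s.im - y i) ^ 2 := by ring
        rw [e2, ← neg_div]
        congr 1
        ring
      rw [e1, abs_neg]
      exact hbd) i rfl (by linarith) hi2
  exact ⟨j, by linarith, by linarith⟩

theorem mod_both {B κ e t : ℝ} {k : ℕ} {y : Fin k → ℝ} {h : ℂ → ℂ} (hm : Mod B κ e t y h) {s : ℂ}
    (hs : Reg e t s) (hx : |s.re - 1 / 2| * (2 * B) ≤ 1) (hne : ∀ i, s ≠ pt (1 / 2) (y i))
    (h0 : Ph y h s = 0) (i : Fin k) (hi : 4 * B * |s.im - y i| ≤ 1)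
    (hi2 : κ * (s.im - y i) ^ 2 ≤ s.re - 1 / 2) :
    ∃ i' j, y i' < s.im ∧ s.im < y j ∧ κ * (y j - y i') ^ 2 ≤ 25 * B ^ 2 * (s.re - 1 / 2) := by
  obtain ⟨h1, h2⟩ := mod_loc hm hs hx hne h0
  have hB := hm.hB
  have hκ := hm.κ0
  have key : ∀ w D : ℝ, 0 ≤ w → 0 ≤ D → D ≤ 5 * B * w → κ * w ^ 2 ≤ s.re - 1 / 2 →
      κ * D ^ 2 ≤ 25 * B ^ 2 * (s.re - 1 / 2) := by
    intro w D hw hD hDw hκw
    calc κ * D ^ 2 ≤ κ * (5 * B * w) ^ 2 := by gcongr
      _ = 25 * B ^ 2 * (κ * w ^ 2) := by ring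
      _ ≤ _ := by gcongr
  rcases lt_trichotomy (y i) s.im with h3 | h3 | h3
  · rw [abs_of_pos (by linarith)] at hi
    obtain ⟨j, h4, h5⟩ := mod_above hm hs hx hne h0 i h3 hi
    refine ⟨i, j, h3, h4, key (s.im - y i) _ (by linarith) (by linarith) ?_ hi2⟩
    nlinarith
  · exfalso
    have := h2 i
    rw [h3, sub_self] at this
    nlinarith
  · rw [abs_of_neg (by linarith), neg_sub] at hi
    obtain ⟨j, h4, h5⟩ := mod_below hm hs hx hne h0 i h3 hi
    refine ⟨j, i, h4, h3, key (y i - s.im) _ (by linarith) (by linarith) ?_ ?_⟩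
    · nlinarith
    · have e1 : (y i - s.im) ^ 2 = (s.im - y i) ^ 2 := by ring
      rw [e1]
      exact hi2

private lemma sum_sq_le {k : ℕ} (f : Fin k → ℝ) (hf : ∀ i, 0 ≤ f i) :
    ∑ i, f i ^ 2 ≤ (∑ i, f i) ^ 2 := by
  have h1 : ∀ i, f i ≤ ∑ j, f j := fun i =>
    Finset.single_le_sum (fun j _ => hf j) (Finset.mem_univ i)
  calc ∑ i, f i ^ 2 ≤ ∑ i, f i * ∑ j, f j := by
        refine Finset.sum_le_sum fun i _ => ?_
        rw [sq]
        exact mul_le_mul_of_nonneg_left (h1 i) (hf i)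
    _ = (∑ i, f i) ^ 2 := by rw [← Finset.sum_mul, sq]

/-- one of the terms of a large sum is large -/
private lemma pick {k : ℕ} {B P x : ℝ} (v : Fin k → ℝ) (hB : 1 ≤ B) (hk : (k : ℝ) ≤ B)
    (hP : 0 < P) (hsum : P ≤ ∑ i, max (v i / (x ^ 2 + v i ^ 2)) 0) :
    ∃ i, 0 < v i ∧ v i ≤ B / P := by
  obtain ⟨i, hi⟩ := A.exists_ge_avg hP hk hsum
  have hPB : 0 < P / B := by positivity
  have h1 : P / B ≤ v i / (x ^ 2 + v i ^ 2) := by
    rcases le_max_iff.1 hi with h | h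
    · exact h
    · linarith
  have hden : 0 ≤ x ^ 2 + v i ^ 2 := by positivity
  have hvi : 0 < v i := by
    by_contra hcon
    push Not at hcon
    have := div_nonpos_of_nonpos_of_nonneg hcon hden
    linarith
  refine ⟨i, hvi, ?_⟩
  have h2 : v i / (x ^ 2 + v i ^ 2) ≤ 1 / v i := by
    rw [div_le_div_iff₀ (by positivity) hvi]
    nlinarith [sq_nonneg x]
  have h3 := h1.trans h2
  rw [div_le_div_iff₀ (by positivity) hvi] at h3
  rw [le_div_iff₀ hP]
  linarith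

/-- both neighbours are near: `κ g^2 ≤ 64 B x` -/
theorem mod_gap {B κ e t : ℝ} {k : ℕ} {y : Fin k → ℝ} {h : ℂ → ℂ} (hm : Mod B κ e t y h) {s : ℂ}
    (hs : Reg e t s) (hx : |s.re - 1 / 2| * (2 * B) ≤ 1) (hne : ∀ i, s ≠ pt (1 / 2) (y i))
    (h0 : Ph y h s = 0) (h16 : 16 * B * (s.re - 1 / 2) ≤ κ) :
    ∃ i' j, y i' < s.im ∧ s.im < y j ∧ κ * (y j - y i') ^ 2 ≤ 64 * B * (s.re - 1 / 2) := by
  obtain ⟨hpos, hloc⟩ := mod_loc hm hs hx hne h0
  have hB := hm.hB
  have hκ := hm.κ0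
  have hκB : 0 < κ * B := by positivity
  set x := s.re - 1 / 2 with hxdef
  rw [abs_of_pos hpos] at hx
  have hxu : ∀ i, x ^ 2 ≤ (s.im - y i) ^ 2 := by
    intro i
    have h1 := mul_le_mul_of_nonneg_left (hloc i) hpos.le
    have h2 : x * (2 * B * (s.im - y i) ^ 2) = (x * (2 * B)) * (s.im - y i) ^ 2 := by ring
    rw [h2] at h1
    have h3 : (x * (2 * B)) * (s.im - y i) ^ 2 ≤ 1 * (s.im - y i) ^ 2 := by gcongr
    linarith [sq x]
  have hden : ∀ i, 0 < x ^ 2 + (s.im - y i) ^ 2 := fun i => by positivity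
  -- real part
  have hre := hm.re_le s hs
  have hRe : κ * B ≤ ∑ i, x / (x ^ 2 + (s.im - y i) ^ 2) := by
    have h1 := congrArg Complex.re h0
    rw [Ph, Complex.add_re, Complex.re_sum, Complex.zero_re] at h1
    have h2 : ∑ i, (1 / (s - pt (1 / 2) (y i))).re = ∑ i, x / (x ^ 2 + (s.im - y i) ^ 2) := by
      refine Finset.sum_congr rfl fun i _ => ?_
      rw [one_div, Complex.inv_re, normSq_line', Complex.sub_re, pt_re]
    rw [h2] at h1
    linarith
  -- imaginary part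
  have hbd := (Complex.abs_im_le_norm _).trans (hm.bd s hs)
  rw [← im_eq h0] at hbd
  set p : Fin k → ℝ := fun i => (s.im - y i) / (x ^ 2 + (s.im - y i) ^ 2) with hp
  set f1 : Fin k → ℝ := fun i => max (p i) 0 with hf1
  set f2 : Fin k → ℝ := fun i => max (-p i) 0 with hf2
  have hdiff : ∑ i, f1 i - ∑ i, f2 i = ∑ i, p i := by
    rw [← Finset.sum_sub_distrib]
    refine Finset.sum_congr rfl fun i _ => ?_
    simp only [hf1, hf2]
    rcases le_total (p i) 0 with h | h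
    · rw [max_eq_right h, max_eq_left (by linarith)]; ring
    · rw [max_eq_left h, max_eq_right (by linarith)]; ring
  have hsq : ∀ i, f1 i ^ 2 + f2 i ^ 2 = p i ^ 2 := by
    intro i
    simp only [hf1, hf2]
    rcases le_total (p i) 0 with h | h
    · rw [max_eq_right h, max_eq_left (by linarith)]; ring
    · rw [max_eq_left h, max_eq_right (by linarith)]; ring
  have hp2 : ∀ i, x / (x ^ 2 + (s.im - y i) ^ 2) ≤ 2 * x * p i ^ 2 := by
    intro i
    have h1 := hxu i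
    have h2 := hden i
    simp only [hp]
    rw [div_pow, mul_div_assoc', div_le_div_iff₀ h2 (by positivity)]
    have h3 : x ^ 2 + (s.im - y i) ^ 2 ≤ 2 * (s.im - y i) ^ 2 := by linarith
    have h4 : x * (x ^ 2 + (s.im - y i) ^ 2) ^ 2 =
        (x ^ 2 + (s.im - y i) ^ 2) * (x * (x ^ 2 + (s.im - y i) ^ 2)) := by ring
    rw [h4]
    have h5 : 2 * x * (s.im - y i) ^ 2 * (x ^ 2 + (s.im - y i) ^ 2) =
        (x ^ 2 + (s.im - y i) ^ 2) * (x * (2 * (s.im - y i) ^ 2)) := by ring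
    rw [h5]
    gcongr
  have hf1n : ∀ i, 0 ≤ f1 i := fun i => le_max_right _ _
  have hf2n : ∀ i, 0 ≤ f2 i := fun i => le_max_right _ _
  have hP1 : 0 ≤ ∑ i, f1 i := Finset.sum_nonneg fun i _ => hf1n i
  have hP2 : 0 ≤ ∑ i, f2 i := Finset.sum_nonneg fun i _ => hf2n i
  set P1 := ∑ i, f1 i with hP1def
  set P2 := ∑ i, f2 i with hP2def
  have hmain : κ * B ≤ 2 * x * (P1 ^ 2 + P2 ^ 2) := by
    have h1 : ∑ i, x / (x ^ 2 + (s.im - y i) ^ 2) ≤ 2 * x * ∑ i, p i ^ 2 := by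
      rw [Finset.mul_sum]
      exact Finset.sum_le_sum fun i _ => hp2 i
    have h2 : ∑ i, p i ^ 2 ≤ P1 ^ 2 + P2 ^ 2 := by
      have h3 : ∑ i, p i ^ 2 = ∑ i, f1 i ^ 2 + ∑ i, f2 i ^ 2 := by
        rw [← Finset.sum_add_distrib]
        exact Finset.sum_congr rfl fun i _ => (hsq i).symm
      rw [h3]
      exact add_le_add (sum_sq_le f1 hf1n) (sum_sq_le f2 hf2n)
    calc κ * B ≤ 2 * x * ∑ i, p i ^ 2 := hRe.trans h1
      _ ≤ 2 * x * (P1 ^ 2 + P2 ^ 2) := by gcongr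
  rw [← hdiff] at hbd
  have hbd' := abs_le.1 hbd
  -- `R = √(κB/(4x))`
  obtain ⟨R, hR⟩ : ∃ R : ℝ, R = √(κ * B / (4 * x)) := ⟨_, rfl⟩
  have hR0 : 0 < R := by rw [hR]; positivity
  have hR2 : R ^ 2 = κ * B / (4 * x) := by rw [hR, Real.sq_sqrt (by positivity)]
  have hR2' : 4 * x * R ^ 2 = κ * B := by rw [hR2]; field_simp
  have hRB : 2 * B ≤ R := by
    have h1 : (2 * B) ^ 2 ≤ R ^ 2 := by
      rw [hR2, le_div_iff₀ (by positivity)]
      have : (2 * B) ^ 2 * (4 * x) = B * (16 * B * x) := by ring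
      rw [this, mul_comm κ B]
      gcongr
    exact (abs_le_of_sq_le_sq' h1 hR0.le).2
  have hmax : R ≤ P1 ∨ R ≤ P2 := by
    by_contra hcon
    push Not at hcon
    have h1 : P1 ^ 2 < R ^ 2 := by gcongr; exact hcon.1
    have h2 : P2 ^ 2 < R ^ 2 := by gcongr; exact hcon.2
    nlinarith
  have hboth : R / 2 ≤ P1 ∧ R / 2 ≤ P2 := by
    rcases hmax with h | h
    · exact ⟨by linarith, by linarith [hbd'.2]⟩
    · exact ⟨by linarith [hbd'.1], by linarith⟩
  obtain ⟨i, hi1, hi2⟩ := pick (x := x) (fun i => s.im - y i) hB hm.hk (P := R / 2) (by positivity)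
    hboth.1
  have hP2' : R / 2 ≤ ∑ i, max ((y i - s.im) / (x ^ 2 + (y i - s.im) ^ 2)) 0 := by
    refine hboth.2.trans (le_of_eq ?_)
    refine Finset.sum_congr rfl fun i _ => ?_
    simp only [hf2, hp]
    have e1 : (y i - s.im) ^ 2 = (s.im - y i) ^ 2 := by ring
    rw [e1, ← neg_div, neg_sub]
  obtain ⟨j, hj1, hj2⟩ := pick (x := x) (fun i => y i - s.im) hB hm.hk (P := R / 2) (by positivity)
    hP2'
  refine ⟨i, j, by linarith, by linarith, ?_⟩
  have h1 : y j - y i ≤ 4 * B / R := by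
    have : B / (R / 2) + B / (R / 2) = 4 * B / R := by field_simp; norm_num
    linarith
  have h2 : 0 ≤ y j - y i := by linarith
  calc κ * (y j - y i) ^ 2 ≤ κ * (4 * B / R) ^ 2 := by gcongr
    _ = 16 * B * (κ * B) / R ^ 2 := by rw [div_pow]; ring
    _ = 64 * B * x := by rw [← hR2']; field_simp; norm_num

end Pool.Agent.ZPD
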