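import Pool.Agent.Lib.MP_af3d17_nt_h68.Defs
import Pool.Agent.Lib.MP_af3d17_nt_h98.Near

/-!
Row Z1. The local model near a height without off-line zeros.
-/

set_option autoImplicit false

namespace Pool.Agent.ZPD

open Filter Topology Metric Pool.Agent.ZP

private lemma reg_mem {e t : ℝ} (he : e ≤ 1 / 30) {s : ℂ} (hs : Reg e t s) :
    s ∈ closedBall (pt 10 t) (955 / 100) := by
  have h1 := abs_le.1 hs.1
  have h2 := abs_le.1 hs.2
  have h3 : s = pt s.re s.im := by apply Complex.ext <;> simp
  rw [h3]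
  refine pt_mem_disc (by norm_num) ?_
  nlinarith

/-- zeros in the disc are on the line -/
lemma disc_line {t : ℝ} (ht : 100 ≤ t) (hf : Free t 5) {z : ℂ}
    (hz : z ∈ closedBall (pt 10 t) (97 / 10)) (hz0 : riemannZeta z = 0) :
    z = pt (1 / 2) z.im ∧ |z.im - t| ≤ 4 := by
  have hm := mem_disc hz
  have hre1 : z.re < 1 := by
    by_contra hcon
    exact riemannZeta_ne_zero_of_one_le_re (not_lt.1 hcon) hz0
  have hsq : (z.re - 10) ^ 2 + (z.im - t) ^ 2 ≤ (97 / 10) ^ 2 := by
    rw [mem_closedBall, dist_eq_norm] at hz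
    have h1 : ‖z - pt 10 t‖ ^ 2 ≤ (97 / 10) ^ 2 := by
      have := norm_nonneg (z - pt 10 t)
      gcongr
    rw [← Complex.normSq_eq_norm_sq, Complex.normSq_apply] at h1
    simp only [Complex.sub_re, pt_re, Complex.sub_im, pt_im] at h1
    linarith [h1]
  have him : |z.im - t| ≤ 4 := by
    apply abs_le_of_sq_le_sq _ (by norm_num)
    nlinarith
  have hup : IsUpperZero z := ⟨hz0, by linarith [hm.1], hre1, by linarith [hm.2.2.1]⟩
  have h1 := hf z hup (by linarith)
  exact ⟨Complex.ext (by rw [pt_re]; exact h1) (by rw [pt_im]), him⟩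

theorem mod_of_free : ∃ C κ e K T : ℝ, 0 < C ∧ 0 < κ ∧ 0 < e ∧ 0 ≤ K ∧ 100 ≤ T ∧
    ∀ t ≥ T, Free t 5 →
    ∃ (k : ℕ) (y : Fin k → ℝ) (h : ℂ → ℂ), Mod (C * Real.log t) κ e t y h ∧
      (∀ s, Reg e t s → -(h s).re ≤ Real.log t / 2 + K +
        20 * (C * Real.log t) * |s.re - 1 / 2|) ∧
      (∀ s, Reg e t s → DifferentiableAt ℂ h s) ∧
      (∀ s, Reg e t s → riemannZeta s ≠ 0 → logDeriv riemannZeta s = Ph y h s) ∧
      (∀ i, riemannZeta (pt (1 / 2) (y i)) = 0 ∧ |y i - t| ≤ 4) ∧
      (∀ s, Reg e t s → riemannZeta s = 0 → ∃ i, s = pt (1 / 2) (y i)) := by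
  obtain ⟨C1, T1, hC1, hT1, hloc⟩ := local_zeta
  obtain ⟨T2, hT2, hLam⟩ := Lam_line
  obtain ⟨C3, T3, hT3, hLam3⟩ := Lam_strip (1 / 2) (1 / 2)
  obtain ⟨C, hC⟩ : ∃ C : ℝ, C = C1 + 1 := ⟨_, rfl⟩
  have hC0 : 0 < C := by linarith
  have hCC : C1 ≤ C := by linarith
  obtain ⟨e, he⟩ : ∃ e : ℝ, e = 1 / (2000 * C) := ⟨_, rfl⟩
  have he0 : 0 < e := by rw [he]; positivity
  have heC : 2000 * C * e = 1 := by rw [he]; field_simp
  have he30 : e ≤ 1 / 30 := by
    have : 2000 * e ≤ 2000 * C * e := by nlinarith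
    linarith
  refine ⟨C, 1 / (8 * C), e, 2 + |C3|, max T1 (max (T2 + 1) (T3 + 1)), hC0, by positivity, he0,
    by positivity, hT1.trans (le_max_left _ _), fun t ht hfree => ?_⟩
  have ht1 : T1 ≤ t := (le_max_left _ _).trans ht
  have ht2 : T2 + 1 ≤ t := ((le_max_left _ _).trans (le_max_right _ _)).trans ht
  have ht3 : T3 + 1 ≤ t := ((le_max_right _ _).trans (le_max_right _ _)).trans ht
  have ht100 : 100 ≤ t := hT1.trans ht1
  have hlog2 : 2 ≤ Real.log t := by
    rw [Real.le_log_iff_exp_le (by linarith)]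
    have h1 : Real.exp 2 = Real.exp 1 * Real.exp 1 := by rw [← Real.exp_add]; norm_num
    have h2 := Real.exp_one_lt_d9
    have h3 := Real.exp_pos 1
    rw [h1]
    nlinarith
  have hlog1 : 1 ≤ Real.log t := by linarith
  obtain ⟨k, z, g, hk, hz, hg, hf, hg0, hB⟩ := hloc t ht1
  have hzl : ∀ i, z i = pt (1 / 2) (z i).im ∧ |(z i).im - t| ≤ 4 := fun i =>
    disc_line ht100 hfree (hz i).1 (hz i).2
  have hCl : C1 * Real.log t ≤ C * Real.log t := by gcongr
  have hmem : ∀ s, Reg e t s → s ∈ closedBall (pt 10 t) (955 / 100) := fun s hs => reg_mem he30 hs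
  have hlip : ∀ s s' : ℂ, s ∈ closedBall (pt 10 t) (955 / 100) →
      s' ∈ closedBall (pt 10 t) (955 / 100) →
      ‖logDeriv g s - logDeriv g s'‖ ≤ 20 * (C * Real.log t) * ‖s - s'‖ := by
    intro s s' hs hs'
    refine (A.logDeriv_lip hg hg0 hB hs' hs).trans ?_
    gcongr
  -- the real part
  have hreal : ∀ s, Reg e t s → (logDeriv g s).re ≤ -(1 / (8 * C) * (C * Real.log t)) := by
    intro s hs
    obtain ⟨u, hu, hun⟩ := (Set.Ioo_infinite (show s.im - e < s.im by linarith)).exists_notMem_finset
      (Finset.univ.image fun i => (z i).im)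
    have hs2 := abs_le.1 hs.2
    have hs1 := abs_le.1 hs.1
    have hu0 : 0 < u := by linarith [hu.1]
    have hum : pt (1 / 2) u ∈ closedBall (pt 10 t) (955 / 100) :=
      pt_mem_disc (by norm_num) (by nlinarith [hu.1, hu.2])
    have hζu : riemannZeta (pt (1 / 2) u) ≠ 0 := by
      rw [hf _ (closedBall_subset_closedBall (by norm_num) hum)]
      refine mul_ne_zero (Finset.prod_ne_zero_iff.2 fun i _ => ?_)
        (hg0 _ (closedBall_subset_closedBall (by norm_num) hum))
      intro h0
      apply hun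
      rw [Finset.mem_image]
      refine ⟨i, Finset.mem_univ i, ?_⟩
      have := congrArg Complex.im (sub_eq_zero.1 h0)
      rw [pt_im] at this
      exact this.symm
    have hline := re_logDeriv_line hu0 hζu
    rw [A.logDeriv_fact hg hf (closedBall_subset_closedBall (by norm_num) hum) hζu, Complex.add_re,
      Complex.re_sum] at hline
    have hsum0 : ∑ i, (1 / (pt (1 / 2) u - z i)).re = 0 := by
      refine Finset.sum_eq_zero fun i _ => ?_
      have : (z i).re = 1 / 2 := by rw [(hzl i).1, pt_re]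
      rw [A.re_inv_sub, this, pt_re]
      simp
    rw [hsum0, zero_add] at hline
    have hL1 := (hLam u (by linarith [hu.1])).1
    have hlogu : Real.log t - 1 / 2 ≤ Real.log u := by
      have h1 : Real.log t - Real.log u ≤ t / u - 1 := by
        have := Real.log_le_sub_one_of_pos (show 0 < t / u by positivity)
        rwa [Real.log_div (by linarith) (by linarith)] at this
      have h2 : t / u - 1 ≤ 1 / 2 := by
        rw [div_sub_one (by linarith), div_le_iff₀ hu0]
        linarith [hu.1]
      linarith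
    have hdist : ‖s - pt (1 / 2) u‖ ≤ 2 * e := by
      have e1 : s = pt s.re s.im := by apply Complex.ext <;> simp
      have e2 : s - pt (1 / 2) u = (pt s.re s.im - pt (1 / 2) s.im) +
          (pt (1 / 2) s.im - pt (1 / 2) u) := by rw [← e1]; ring
      rw [e2]
      refine (norm_add_le _ _).trans ?_
      rw [A.norm_pt_sub, A.norm_pt_sub']
      have h3 : |s.im - u| ≤ e := abs_le.2 ⟨by linarith [hu.2], by linarith [hu.1]⟩
      linarith [hs.1]
    have h4 := (Complex.abs_re_le_norm _).trans ((hlip s _ (hmem s hs) hum).trans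
      (mul_le_mul_of_nonneg_left hdist (by positivity)))
    rw [Complex.sub_re, abs_le] at h4
    have h5 : 20 * (C * Real.log t) * (2 * e) = Real.log t / 50 := by
      have : 20 * (C * Real.log t) * (2 * e) = (2000 * C * e) * (Real.log t / 50) := by ring
      rw [this, heC, one_mul]
    rw [h5] at h4
    have h6 : 1 / (8 * C) * (C * Real.log t) = Real.log t / 8 := by field_simp
    rw [h6]
    have h4' := h4.2
    linarith
  have hreal2 : ∀ s, Reg e t s → -(logDeriv g s).re ≤ Real.log t / 2 + (2 + |C3|) +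
      20 * (C * Real.log t) * |s.re - 1 / 2| := by
    intro s hs
    obtain ⟨q, hq⟩ : ∃ q : ℝ, q = 1 / (20 * (C * Real.log t)) := ⟨_, rfl⟩
    have hCL0 : 0 < 20 * (C * Real.log t) := by positivity
    have hq0 : 0 < q := by rw [hq]; positivity
    have hqC : 20 * (C * Real.log t) * q = 1 := by rw [hq]; field_simp
    have hq1 : q ≤ 1 / 20 := by
      rw [hq]
      apply one_div_le_one_div_of_le (by norm_num)
      have h1 : 1 ≤ C := by linarith
      nlinarith
    obtain ⟨u, hu, hun⟩ := (Set.Ioo_infinite (show s.im - q < s.im by linarith)).exists_notMem_finset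
      (Finset.univ.image fun i => (z i).im)
    have hs2 := abs_le.1 hs.2
    have hu0 : 0 < u := by linarith [hu.1]
    have hum : pt (1 / 2) u ∈ closedBall (pt 10 t) (955 / 100) :=
      pt_mem_disc (by norm_num) (by nlinarith [hu.1, hu.2])
    have hζu : riemannZeta (pt (1 / 2) u) ≠ 0 := by
      rw [hf _ (closedBall_subset_closedBall (by norm_num) hum)]
      refine mul_ne_zero (Finset.prod_ne_zero_iff.2 fun i _ => ?_)
        (hg0 _ (closedBall_subset_closedBall (by norm_num) hum))
      intro h0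
      apply hun
      rw [Finset.mem_image]
      refine ⟨i, Finset.mem_univ i, ?_⟩
      have := congrArg Complex.im (sub_eq_zero.1 h0)
      rw [pt_im] at this
      exact this.symm
    have hline := re_logDeriv_line hu0 hζu
    rw [A.logDeriv_fact hg hf (closedBall_subset_closedBall (by norm_num) hum) hζu, Complex.add_re,
      Complex.re_sum] at hline
    have hsum0 : ∑ i, (1 / (pt (1 / 2) u - z i)).re = 0 := by
      refine Finset.sum_eq_zero fun i _ => ?_
      have : (z i).re = 1 / 2 := by rw [(hzl i).1, pt_re]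
      rw [A.re_inv_sub, this, pt_re]
      simp
    rw [hsum0, zero_add] at hline
    have hL3 := hLam3 (pt (1 / 2) u) (by rw [pt_re]) (by rw [pt_re])
      (by rw [pt_im]; linarith [hu.1])
    rw [pt_im] at hL3
    have hC3 : C3 / u ≤ |C3| := by
      calc C3 / u ≤ |C3| / u := by gcongr; exact le_abs_self _
        _ ≤ |C3| := div_le_self (abs_nonneg _) (by linarith [hu.1])
    have hL3' := (abs_le.1 ((Complex.abs_re_le_norm _).trans (hL3.trans hC3))).2
    rw [Complex.sub_re, Complex.ofReal_re] at hL3'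
    have hLt : Lt u ≤ Real.log t + 1 := by
      have h2pi : 0 ≤ Real.log (2 * Real.pi) := Real.log_nonneg (by linarith [Real.pi_gt_three])
      rw [Lt, Real.log_div hu0.ne' (by positivity)]
      have h1 : Real.log u - Real.log t ≤ u / t - 1 := by
        have := Real.log_le_sub_one_of_pos (show 0 < u / t by positivity)
        rwa [Real.log_div (by linarith) (by linarith)] at this
      have h2 : u / t - 1 ≤ 1 := by
        rw [div_sub_one (by linarith), div_le_one (by linarith)]
        linarith [hu.2]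
      linarith
    have hdist : ‖s - pt (1 / 2) u‖ ≤ |s.re - 1 / 2| + q := by
      have e1 : s = pt s.re s.im := by apply Complex.ext <;> simp
      have e2 : s - pt (1 / 2) u = (pt s.re s.im - pt (1 / 2) s.im) +
          (pt (1 / 2) s.im - pt (1 / 2) u) := by rw [← e1]; ring
      rw [e2]
      refine (norm_add_le _ _).trans ?_
      rw [A.norm_pt_sub, A.norm_pt_sub']
      have h3 : |s.im - u| ≤ q := abs_le.2 ⟨by linarith [hu.2], by linarith [hu.1]⟩
      linarith
    have h4 := (Complex.abs_re_le_norm _).trans ((hlip s _ (hmem s hs) hum).trans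
      (mul_le_mul_of_nonneg_left hdist (by positivity)))
    rw [Complex.sub_re, abs_le, mul_add, hqC] at h4
    linarith [h4.1, abs_nonneg C3]
  refine ⟨k, fun i => (z i).im, logDeriv g, ⟨?_, ?_, by positivity, ?_, he0, ?_, hreal, ?_⟩,
    hreal2, ?_, ?_, ?_, ?_⟩
  · nlinarith
  · exact hk.trans hCl
  · rw [div_le_one (by positivity)]
    linarith
  · intro s hs
    exact (hB s (closedBall_subset_closedBall (by norm_num) (hmem s hs))).trans hCl
  · intro s s' hs hs'
    exact hlip s s' (hmem s hs) (hmem s' hs')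
  · intro s hs
    have h8 := hg s (closedBall_subset_closedBall (by norm_num) (hmem s hs))
    exact (h8.deriv.div h8 (hg0 s (closedBall_subset_closedBall (by norm_num)
      (hmem s hs)))).differentiableAt
  · intro s hs hζ
    rw [A.logDeriv_fact hg hf (closedBall_subset_closedBall (by norm_num) (hmem s hs)) hζ, Ph]
    congr 1
    refine Finset.sum_congr rfl fun i _ => ?_
    rw [← (hzl i).1]
  · intro i
    exact ⟨by rw [← (hzl i).1]; exact (hz i).2, (hzl i).2⟩
  · intro s hs hζ
    rw [hf s (closedBall_subset_closedBall (by norm_num) (hmem s hs)), mul_eq_zero,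
      or_iff_left (hg0 s (closedBall_subset_closedBall (by norm_num) (hmem s hs))),
      Finset.prod_eq_zero_iff] at hζ
    obtain ⟨i, -, hi⟩ := hζ
    exact ⟨i, by rw [← (hzl i).1]; exact sub_eq_zero.1 hi⟩

end Pool.Agent.ZPD
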