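import Pool.Agent.Lib.MP_af3d17_nt_h68.M1
import Pool.Agent.Lib.MP_af3d17_nt_h68.M2
import Pool.Agent.Lib.MP_af3d17_nt_h68.Z1

/-!
Row Z4. The local bijection, second half.
-/

set_option autoImplicit false

namespace Pool.Agent.ZPD

open Filter Topology Metric Pool.Agent.ZP

theorem gap_of_deriv : ∃ C T : ℝ, 1 ≤ C ∧ 100 ≤ T ∧ ∀ s : ℂ, T ≤ s.im → Free s.im 5 →
    deriv riemannZeta s = 0 → riemannZeta s ≠ 0 →
    |s.re - 1 / 2| * (C * Real.log s.im) ≤ 1 →
    0 < s.re - 1 / 2 ∧ ∃ a b : ℝ, a < s.im ∧ s.im < b ∧ riemannZeta (pt (1 / 2) a) = 0 ∧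
      riemannZeta (pt (1 / 2) b) = 0 ∧
      (∀ u : ℝ, a < u → u < b → riemannZeta (pt (1 / 2) u) ≠ 0) ∧ b - a ≤ 1 / 2 ∧
      (b - a) ^ 2 ≤ C * Real.log s.im * (s.re - 1 / 2) := by
  classical
  obtain ⟨C1, κ, e, K, T1, hC1, hκ, he, hK, hT1, hmod⟩ := mod_of_free
  -- the constant
  obtain ⟨C, hC⟩ : ∃ C : ℝ, C = 1 + 1 / e + 2 * C1 + 256 * C1 / κ := ⟨_, rfl⟩
  have q1 : 0 < 1 / e := by positivity
  have q2 : 0 < 256 * C1 / κ := by positivity
  have hC0 : 0 < C := by rw [hC]; positivity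
  have c1 : 1 ≤ C := by rw [hC]; linarith
  have c2 : 1 / e ≤ C := by rw [hC]; linarith
  have c3 : 2 * C1 ≤ C := by rw [hC]; linarith
  have c4 : 256 * C1 / κ ≤ C := by rw [hC]; linarith
  have c4' : 256 * C1 ≤ C * κ := by rwa [div_le_iff₀ hκ] at c4
  refine ⟨C, T1, c1, hT1, fun s hT hfree hd hζ hx => ?_⟩
  obtain ⟨L, hL⟩ : ∃ L : ℝ, L = Real.log s.im := ⟨_, rfl⟩
  have ht100 : 100 ≤ s.im := hT1.trans hT
  have hL1 : 1 ≤ L := by
    rw [hL, Real.le_log_iff_exp_le (by linarith)]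
    linarith [Real.exp_one_lt_d9]
  rw [← hL] at hx ⊢
  obtain ⟨k, y, h, hm, -, hdiff, hlogd, hy, hz⟩ := hmod s.im hT hfree
  rw [← hL] at hm
  have hax : 0 ≤ |s.re - 1 / 2| := abs_nonneg _
  have hxC : |s.re - 1 / 2| * C ≤ 1 := by
    refine le_trans ?_ hx
    rw [← mul_assoc]
    exact le_mul_of_one_le_right (by positivity) hL1
  have hs : Reg e s.im s := by
    refine ⟨?_, by rw [sub_self, abs_zero]; norm_num⟩
    have h1 : |s.re - 1 / 2| * (1 / e) ≤ 1 := le_trans (by gcongr) hxC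
    rw [mul_one_div, div_le_one he] at h1
    exact h1
  have hx2 : |s.re - 1 / 2| * (2 * (C1 * L)) ≤ 1 := by
    refine le_trans ?_ hx
    have : 2 * (C1 * L) ≤ C * L := by
      calc 2 * (C1 * L) = 2 * C1 * L := by ring
        _ ≤ C * L := by gcongr
    gcongr
  have hne : ∀ i, s ≠ pt (1 / 2) (y i) := by
    intro i hi
    apply hζ
    rw [hi]
    exact (hy i).1
  have h0 : Ph y h s = 0 := by
    rw [← hlogd s hs hζ, logDeriv_apply, hd, zero_div]
  obtain ⟨hpos, hloc⟩ := mod_loc hm hs hx2 hne h0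
  refine ⟨hpos, ?_⟩
  rw [abs_of_pos hpos] at hx
  have hLx : 0 < L * (s.re - 1 / 2) := by positivity
  have hkey : 256 * (C1 * (L * (s.re - 1 / 2))) ≤ κ * ((s.re - 1 / 2) * (C * L)) := by
    nlinarith [mul_le_mul_of_nonneg_right c4' hLx.le]
  have hkey2 : κ * ((s.re - 1 / 2) * (C * L)) ≤ κ * 1 := by gcongr
  have h16 : 16 * (C1 * L) * (s.re - 1 / 2) ≤ κ := by
    have : 0 ≤ C1 * (L * (s.re - 1 / 2)) := by positivity
    nlinarith
  obtain ⟨i', j, hi', hj, hij⟩ := mod_gap hm hs hx2 hne h0 h16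
  -- the nearest ordinates
  obtain ⟨ia, hia, hia2⟩ := Finset.exists_max_image
    (Finset.univ.filter fun i => y i < s.im) y ⟨i', by simp [hi']⟩
  obtain ⟨ib, hib, hib2⟩ := Finset.exists_min_image
    (Finset.univ.filter fun i => s.im < y i) y ⟨j, by simp [hj]⟩
  rw [Finset.mem_filter] at hia hib
  have hba : y ib - y ia ≤ y j - y i' := by
    have h1 := hia2 i' (by simp [hi'])
    have h2 := hib2 j (by simp [hj])
    linarith
  have hba0 : 0 < y ib - y ia := by linarith [hia.2, hib.2]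
  have hκba : κ * (y ib - y ia) ^ 2 ≤ 64 * (C1 * L) * (s.re - 1 / 2) := by
    refine le_trans ?_ hij
    gcongr
  have hfin : (y ib - y ia) ^ 2 ≤ C * L * (s.re - 1 / 2) := by
    have h1 : κ * (y ib - y ia) ^ 2 ≤ κ * (C * L * (s.re - 1 / 2)) := by
      refine hκba.trans ?_
      have : 0 ≤ C1 * (L * (s.re - 1 / 2)) := by positivity
      nlinarith
    exact le_of_mul_le_mul_left h1 hκ
  have hsmall : y ib - y ia ≤ 1 / 2 := by
    refine abs_le_of_sq_le_sq' ?_ (by norm_num) |>.2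
    have h1 : κ * (y ib - y ia) ^ 2 ≤ κ * (1 / 2) ^ 2 := by
      refine hκba.trans ?_
      nlinarith
    exact le_of_mul_le_mul_left h1 hκ
  refine ⟨y ia, y ib, hia.2, hib.2, (hy ia).1, (hy ib).1, ?_, hsmall, hfin⟩
  intro u hu1 hu2 hu0
  have hreg : Reg e s.im (pt (1 / 2) u) := by
    refine ⟨by rw [pt_re, sub_self, abs_zero]; exact he.le, ?_⟩
    rw [pt_im, abs_le]
    constructor <;> linarith [hia.2, hib.2]
  obtain ⟨m, hm'⟩ := hz _ hreg hu0
  have hum : u = y m := by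
    have := congrArg Complex.im hm'
    simpa using this
  rcases lt_trichotomy (y m) s.im with h3 | h3 | h3
  · have := hia2 m (by simp [h3])
    linarith
  · have := hloc m
    rw [h3, sub_self] at this
    nlinarith
  · have := hib2 m (by simp [h3])
    linarith

end Pool.Agent.ZPD
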