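import Pool.Agent.Lib.MP_af3d17_nt_h68.Z3
import Pool.Agent.Lib.MP_af3d17_nt_h68.Z4
import Pool.Agent.Lib.MP_af3d17_nt_h68.N6

/-!
Row B1. The local bijection in terms of the ordinates.
-/

set_option autoImplicit false

namespace Pool.Agent.ZPD

open Filter Topology Metric Pool.Agent.ZP

theorem bijection {γ : ℕ → ℝ} (hγ : IsOrdinateSeq γ) {ε : ℝ} (hε : 0 < ε) :
    ∃ C C' T : ℝ, 1 ≤ C ∧ 1 ≤ C' ∧ 100 ≤ T ∧
    (∀ n : ℕ, T ≤ γ n → Free (γ n) 5 → γ n < γ (n + 1) →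
      C * Real.log (γ n) * (γ (n + 1) - γ n) ≤ 1 →
      ∃ s : ℂ, (γ n < s.im ∧ s.im < γ (n + 1) ∧ deriv riemannZeta s = 0 ∧
        deriv (deriv riemannZeta) s ≠ 0 ∧ |s.re - 1 / 2| * (C * Real.log (γ n)) ≤ 1 ∧
        (γ (n + 1) - γ n) ^ 2 ≤ C * Real.log (γ n) * (s.re - 1 / 2) ∧
        s.re - 1 / 2 ≤ (1 / 16 + ε) * Real.log (γ n) * (γ (n + 1) - γ n) ^ 2) ∧
        ∀ s' : ℂ, γ n < s'.im → s'.im < γ (n + 1) →
          |s'.re - 1 / 2| * (C * Real.log (γ n)) ≤ 1 → deriv riemannZeta s' = 0 → s' = s) ∧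
    (∀ s : ℂ, T ≤ s.im → Free s.im 5 → deriv riemannZeta s = 0 → riemannZeta s ≠ 0 →
      |s.re - 1 / 2| * (C' * Real.log s.im ^ 3) ≤ 1 →
      ∃ n : ℕ, s.im - 1 ≤ γ n ∧ γ n < s.im ∧ s.im < γ (n + 1) ∧
        C * Real.log (γ n) * (γ (n + 1) - γ n) ≤ 1) := by
  obtain ⟨C, T1, hC, hT1, hgap⟩ := gap_unique hε
  obtain ⟨C1, T2, hC1, hT2, hder⟩ := gap_of_deriv
  refine ⟨C, C1 * (C ^ 2 + 1), max T1 T2, hC, by nlinarith [sq_nonneg C], hT1.trans (le_max_left _ _),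
    ?_, ?_⟩
  · intro n hT hfree hlt hsmall
    have h1 : T1 ≤ γ n := (le_max_left _ _).trans hT
    have h100 : 100 ≤ γ n := hT1.trans h1
    have hL : 1 ≤ Real.log (γ n) := by
      rw [Real.le_log_iff_exp_le (by linarith)]
      linarith [Real.exp_one_lt_d9]
    have h2 : γ (n + 1) - γ n ≤ 1 := by
      have h3 : 1 ≤ C * Real.log (γ n) := by nlinarith
      nlinarith
    obtain ⟨h3, h4, h5⟩ := gap_consecutive hγ hfree hlt h2
    exact hgap _ _ h1 hfree hlt hsmall h3 h4 h5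
  · intro s hT hfree hd hζ hx
    have h1 : T2 ≤ s.im := (le_max_right _ _).trans hT
    have h100 : 100 ≤ s.im := hT2.trans h1
    obtain ⟨L, hLdef⟩ : ∃ L : ℝ, L = Real.log s.im := ⟨_, rfl⟩
    have hL : 1 ≤ L := by
      rw [hLdef, Real.le_log_iff_exp_le (by linarith)]
      linarith [Real.exp_one_lt_d9]
    rw [← hLdef] at hx
    have hL2 : 1 ≤ L ^ 2 := one_le_pow₀ hL
    have hx1 : |s.re - 1 / 2| * (C1 * L) ≤ 1 := by
      refine le_trans ?_ hx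
      have h3 : C1 * L ≤ C1 * (C ^ 2 + 1) * L ^ 3 := by
        have e2 : 1 ≤ (C ^ 2 + 1) * L ^ 2 := by nlinarith [sq_nonneg C]
        have e3 : C1 * (C ^ 2 + 1) * L ^ 3 = (C1 * L) * ((C ^ 2 + 1) * L ^ 2) := by ring
        rw [e3]
        exact le_mul_of_one_le_right (by positivity) e2
      gcongr
    obtain ⟨hpos, a, b, ha, hb, ha0, hb0, hab0, hba1, hab⟩ := hder s h1 hfree hd hζ
      (by rw [← hLdef]; exact hx1)
    rw [← hLdef] at hab
    rw [abs_of_pos hpos] at hx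
    -- the gap is short
    have hsq : (C * L * (b - a)) ^ 2 ≤ 1 ^ 2 := by
      have e1 : (C * L * (b - a)) ^ 2 = C ^ 2 * L ^ 2 * (b - a) ^ 2 := by ring
      rw [e1]
      calc C ^ 2 * L ^ 2 * (b - a) ^ 2 ≤ C ^ 2 * L ^ 2 * (C1 * L * (s.re - 1 / 2)) := by gcongr
        _ = C1 * C ^ 2 * (L ^ 3 * (s.re - 1 / 2)) := by ring
        _ ≤ C1 * (C ^ 2 + 1) * (L ^ 3 * (s.re - 1 / 2)) := by
            have : 0 ≤ L ^ 3 * (s.re - 1 / 2) := by positivity
            gcongr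
            linarith
        _ = (s.re - 1 / 2) * (C1 * (C ^ 2 + 1) * L ^ 3) := by ring
        _ ≤ 1 ^ 2 := by rw [one_pow]; exact hx
    have hshort : C * L * (b - a) ≤ 1 := (abs_le_of_sq_le_sq' hsq (by norm_num)).2
    obtain ⟨n, hn, hn1⟩ := index_of_consecutive hγ (a := a) (b := b) (t := s.im) (by linarith)
      (by linarith) hfree (abs_le.2 ⟨by linarith, by linarith⟩) (abs_le.2 ⟨by linarith, by linarith⟩)
      ha0 hb0 hab0
    refine ⟨n, by rw [hn]; linarith, by rw [hn]; exact ha, by rw [hn1]; exact hb, ?_⟩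
    rw [hn, hn1]
    refine le_trans ?_ hshort
    have h3 : Real.log a ≤ L := by
      rw [hLdef]
      exact Real.log_le_log (by linarith) ha.le
    have h4 : 0 ≤ b - a := by linarith
    gcongr

end Pool.Agent.ZPD
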