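import Pool.Agent.Lib.MP_af3d17_nt_h98.Count
import Pool.Agent.Lib.MP_af3d17_nt_h98.Pair
import Pool.Agent.Lib.MP_af3d17_nt_h98.Strip

/-!
# MP_af3d17_nt: small gaps and zeros of `ζ'`, bijection and counting. Definitions.
-/

set_option autoImplicit false

namespace Pool.Agent.ZPD

open Filter Topology Metric Pool.Agent.ZP

/-- no zero off the critical line with ordinate at distance at most `r` from `t` -/
def Free (t r : ℝ) : Prop := ∀ ρ : ℂ, IsUpperZero ρ → |ρ.im - t| ≤ r → ρ.re = 1 / 2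

/-- the small rectangle about `1/2 + it` -/
def Reg (e t : ℝ) (s : ℂ) : Prop := |s.re - 1 / 2| ≤ e ∧ |s.im - t| ≤ 1 / 2

/-- the local model of `ζ'/ζ` -/
noncomputable def Ph {k : ℕ} (y : Fin k → ℝ) (h : ℂ → ℂ) (s : ℂ) : ℂ :=
  ∑ i, 1 / (s - pt (1 / 2) (y i)) + h s

/-- bounds for the local model -/
structure Mod (B κ e t : ℝ) {k : ℕ} (y : Fin k → ℝ) (h : ℂ → ℂ) : Prop where
  hB : 1 ≤ B
  hk : (k : ℝ) ≤ B
  κ0 : 0 < κ
  κ1 : κ ≤ 1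
  e0 : 0 < e
  bd : ∀ s : ℂ, Reg e t s → ‖h s‖ ≤ B
  re_le : ∀ s : ℂ, Reg e t s → (h s).re ≤ -(κ * B)
  lip : ∀ s s' : ℂ, Reg e t s → Reg e t s' → ‖h s - h s'‖ ≤ 20 * B * ‖s - s'‖

/-- indices `n` of gaps `γ_{n+1} - γ_n ≤ δ` with `a < γ_n ≤ b` -/
def gapSet (γ : ℕ → ℝ) (a b δ : ℝ) : Set ℕ := {n | a < γ n ∧ γ n ≤ b ∧ γ (n + 1) - γ n ≤ δ}

/-- zeros of `ζ'` with `a < Im ≤ b`, `Re ≤ 1/2 + x`, each repeated according to multiplicity -/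
def derivSet (a b x : ℝ) : Set (ℂ × ℕ) :=
  {p | a < p.1.im ∧ p.1.im ≤ b ∧ p.1.re ≤ 1 / 2 + x ∧
    (p.2 : ℕ∞) < analyticOrderAt (deriv riemannZeta) p.1}

end Pool.Agent.ZPD
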