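import Pool.Agent.Lib.MP_af3d17_nt_h68.Defs
import Pool.Agent.Lib.MP_af3d17_nt_h98.Near

/-!
Row M1. Real part of the equation `Ph = 0`.
-/

set_option autoImplicit false

namespace Pool.Agent.ZPD

open Filter Topology Metric Pool.Agent.ZP

private lemma normSq_line (s : ℂ) (v : ℝ) :
    ‖s - pt (1 / 2) v‖ ^ 2 = (s.re - 1 / 2) ^ 2 + (s.im - v) ^ 2 := by
  rw [← Complex.normSq_eq_norm_sq, Complex.normSq_apply]
  simp only [Complex.sub_re, Complex.sub_im, pt_re, pt_im]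
  ring

private lemma re_term (s : ℂ) (v : ℝ) :
    (1 / (s - pt (1 / 2) v)).re =
      (s.re - 1 / 2) / ((s.re - 1 / 2) ^ 2 + (s.im - v) ^ 2) := by
  rw [A.re_inv_sub, normSq_line, pt_re]

lemma term_pos {s : ℂ} {v : ℝ} (h : s ≠ pt (1 / 2) v) :
    0 < (s.re - 1 / 2) ^ 2 + (s.im - v) ^ 2 := by
  rw [← normSq_line]
  have : 0 < ‖s - pt (1 / 2) v‖ := norm_pos_iff.2 (sub_ne_zero.2 h)
  positivity

/-- real part of the equation -/
lemma re_eq {k : ℕ} {y : Fin k → ℝ} {h : ℂ → ℂ} {s : ℂ} (h0 : Ph y h s = 0) :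
    ∑ i, (s.re - 1 / 2) / ((s.re - 1 / 2) ^ 2 + (s.im - y i) ^ 2) = -(h s).re := by
  have h1 := congrArg Complex.re h0
  rw [Ph, Complex.add_re, Complex.re_sum, Complex.zero_re] at h1
  simp only [re_term] at h1
  linarith

theorem mod_loc {B κ e t : ℝ} {k : ℕ} {y : Fin k → ℝ} {h : ℂ → ℂ} (hm : Mod B κ e t y h) {s : ℂ}
    (hs : Reg e t s) (hx : |s.re - 1 / 2| * (2 * B) ≤ 1) (hne : ∀ i, s ≠ pt (1 / 2) (y i))
    (h0 : Ph y h s = 0) :
    0 < s.re - 1 / 2 ∧ ∀ i, s.re - 1 / 2 ≤ 2 * B * (s.im - y i) ^ 2 := by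
  have hB := hm.hB
  have hκ := hm.κ0
  have hre := hm.re_le s hs
  have hbd := (Complex.abs_re_le_norm _).trans (hm.bd s hs)
  have hsum := re_eq h0
  have hpos : 0 < s.re - 1 / 2 := by
    by_contra hcon
    push Not at hcon
    have h1 : ∑ i, (s.re - 1 / 2) / ((s.re - 1 / 2) ^ 2 + (s.im - y i) ^ 2) ≤ 0 :=
      Finset.sum_nonpos fun i _ => div_nonpos_of_nonpos_of_nonneg hcon (term_pos (hne i)).le
    have h2 : 0 < κ * B := by positivity
    linarith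
  refine ⟨hpos, fun i => ?_⟩
  have h1 : (s.re - 1 / 2) / ((s.re - 1 / 2) ^ 2 + (s.im - y i) ^ 2) ≤ B := by
    have h2 := Finset.single_le_sum
      (f := fun i => (s.re - 1 / 2) / ((s.re - 1 / 2) ^ 2 + (s.im - y i) ^ 2))
      (fun j _ => div_nonneg hpos.le (term_pos (hne j)).le) (Finset.mem_univ i)
    rw [hsum] at h2
    have := (abs_le.1 hbd).1
    linarith
  rw [div_le_iff₀ (term_pos (hne i))] at h1
  rw [abs_of_pos hpos] at hx
  nlinarith [mul_le_mul_of_nonneg_left hx hpos.le]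

theorem mod_near {B κ e t : ℝ} {k : ℕ} {y : Fin k → ℝ} {h : ℂ → ℂ} (hm : Mod B κ e t y h) {s : ℂ}
    (hs : Reg e t s) (hne : ∀ i, s ≠ pt (1 / 2) (y i))
    (h0 : Ph y h s = 0) : ∃ i, κ * (s.im - y i) ^ 2 ≤ s.re - 1 / 2 := by
  have hB := hm.hB
  have hκ := hm.κ0
  have hre := hm.re_le s hs
  have hsum := re_eq h0
  have h2 : 0 < κ * B := by positivity
  obtain ⟨i, hi⟩ := A.exists_ge_avg h2 hm.hk (f := fun i => (s.re - 1 / 2) /
    ((s.re - 1 / 2) ^ 2 + (s.im - y i) ^ 2)) (by rw [hsum]; linarith)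
  refine ⟨i, ?_⟩
  have e1 : κ * B / B = κ := by field_simp
  rw [e1, le_div_iff₀ (term_pos (hne i))] at hi
  nlinarith [sq_nonneg (s.re - 1 / 2)]

end Pool.Agent.ZPD
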