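import Pool.Agent.Lib.MP_af3d17_nt_h68.Defs

/-!
Row M3. Injectivity of `Ph` over a gap.
-/

set_option autoImplicit false

namespace Pool.Agent.ZPD

open Filter Topology Metric Pool.Agent.ZP

/-- real part of `1/((x₁+iu₁)(x₂+iu₂))` -/
private lemma re_prod {x₁ x₂ u₁ u₂ : ℝ} (hu : 0 < u₁ * u₂) (h1 : 10 * |x₁| ≤ |u₁|)
    (h2 : 10 * |x₂| ≤ |u₂|) :
    (1 / ((⟨x₁, u₁⟩ : ℂ) * ⟨x₂, u₂⟩)).re ≤ -(9 / 10) / (u₁ * u₂) := by
  have hx1 : 100 * x₁ ^ 2 ≤ u₁ ^ 2 := by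
    have := mul_self_le_mul_self (by positivity) h1
    rw [← sq_abs x₁, ← sq_abs u₁]
    nlinarith
  have hx2 : 100 * x₂ ^ 2 ≤ u₂ ^ 2 := by
    have := mul_self_le_mul_self (by positivity) h2
    rw [← sq_abs x₂, ← sq_abs u₂]
    nlinarith
  have hx12 : x₁ * x₂ ≤ u₁ * u₂ / 100 := by
    have h3 : |x₁| * |x₂| ≤ |u₁| * |u₂| / 100 := by
      have := mul_le_mul h1 h2 (by positivity) (abs_nonneg _)
      linarith
    rw [← abs_mul, ← abs_mul, abs_of_pos hu] at h3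
    exact (le_abs_self _).trans h3
  have hu1 : u₁ ≠ 0 := fun h => by rw [h, zero_mul] at hu; exact lt_irrefl _ hu
  have hu2 : u₂ ≠ 0 := fun h => by rw [h, mul_zero] at hu; exact lt_irrefl _ hu
  have hn1 : 0 < x₁ ^ 2 + u₁ ^ 2 := by positivity
  have hn2 : 0 < x₂ ^ 2 + u₂ ^ 2 := by positivity
  have e1 : Complex.normSq ((⟨x₁, u₁⟩ : ℂ) * ⟨x₂, u₂⟩) =
      (x₁ ^ 2 + u₁ ^ 2) * (x₂ ^ 2 + u₂ ^ 2) := by
    rw [Complex.normSq_mul, Complex.normSq_mk, Complex.normSq_mk]; ring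
  have e2 : ((⟨x₁, u₁⟩ : ℂ) * ⟨x₂, u₂⟩).re = x₁ * x₂ - u₁ * u₂ := by
    simp [Complex.mul_re]
  rw [one_div, Complex.inv_re, e1, e2, div_le_div_iff₀ (by positivity) hu]
  have h3 : (x₁ ^ 2 + u₁ ^ 2) * (x₂ ^ 2 + u₂ ^ 2) ≤ (101 / 100) ^ 2 * (u₁ * u₂) ^ 2 := by
    calc (x₁ ^ 2 + u₁ ^ 2) * (x₂ ^ 2 + u₂ ^ 2)
        ≤ ((101 / 100) * u₁ ^ 2) * ((101 / 100) * u₂ ^ 2) :=
          mul_le_mul (by linarith) (by linarith) hn2.le (by positivity)
      _ = (101 / 100) ^ 2 * (u₁ * u₂) ^ 2 := by ring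
  have h4 : (x₁ * x₂ - u₁ * u₂) * (u₁ * u₂) ≤ -(99 / 100) * (u₁ * u₂) ^ 2 := by nlinarith
  nlinarith

private lemma sub_pt (s : ℂ) (v : ℝ) : s - pt (1 / 2) v = ⟨s.re - 1 / 2, s.im - v⟩ := by
  apply Complex.ext <;> simp [pt]

/-- the sum of the products, bounded from below -/
private lemma sum_lower {k : ℕ} {y : Fin k → ℝ} {a b : ℝ} {s₁ s₂ : ℂ}
    (hy : ∀ i, y i ≤ a ∨ b ≤ y i) (ha : ∃ i, y i = a)
    (ha1 : 10 * |s₁.re - 1 / 2| ≤ s₁.im - a) (hb1 : 10 * |s₁.re - 1 / 2| ≤ b - s₁.im)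
    (ha2 : 10 * |s₂.re - 1 / 2| ≤ s₂.im - a) (hb2 : 10 * |s₂.re - 1 / 2| ≤ b - s₂.im)
    (hi1 : a < s₁.im) (hi1' : s₁.im < b) (hi2 : a < s₂.im) (hi2' : s₂.im < b) :
    9 / 10 / (b - a) ^ 2 ≤
      ‖∑ i, 1 / ((s₁ - pt (1 / 2) (y i)) * (s₂ - pt (1 / 2) (y i)))‖ := by
  have hterm : ∀ i, (1 / ((s₁ - pt (1 / 2) (y i)) * (s₂ - pt (1 / 2) (y i)))).re ≤
      -(9 / 10) / ((s₁.im - y i) * (s₂.im - y i)) ∧ 0 < (s₁.im - y i) * (s₂.im - y i) := by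
    intro i
    rw [sub_pt, sub_pt]
    rcases hy i with h | h
    · have hpos : 0 < (s₁.im - y i) * (s₂.im - y i) :=
        mul_pos (by linarith) (by linarith)
      refine ⟨re_prod hpos ?_ ?_, hpos⟩
      · rw [abs_of_pos (by linarith : 0 < s₁.im - y i)]; linarith
      · rw [abs_of_pos (by linarith : 0 < s₂.im - y i)]; linarith
    · have hpos : 0 < (s₁.im - y i) * (s₂.im - y i) :=
        mul_pos_of_neg_of_neg (by linarith) (by linarith)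
      refine ⟨re_prod hpos ?_ ?_, hpos⟩
      · rw [abs_of_neg (by linarith : s₁.im - y i < 0)]; linarith
      · rw [abs_of_neg (by linarith : s₂.im - y i < 0)]; linarith
  obtain ⟨i0, hi0⟩ := ha
  have h1 : (∑ i, 1 / ((s₁ - pt (1 / 2) (y i)) * (s₂ - pt (1 / 2) (y i)))).re ≤
      -(9 / 10 / (b - a) ^ 2) := by
    rw [Complex.re_sum]
    have h2 : ∑ i, (1 / ((s₁ - pt (1 / 2) (y i)) * (s₂ - pt (1 / 2) (y i)))).re ≤
        ∑ i, if i = i0 then -(9 / 10 / (b - a) ^ 2) else 0 := by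
      refine Finset.sum_le_sum fun i _ => ?_
      obtain ⟨h3, h4⟩ := hterm i
      split_ifs with h5
      · refine h3.trans ?_
        rw [neg_div, neg_le_neg_iff, h5, hi0]
        rw [h5, hi0] at h4
        apply div_le_div_of_nonneg_left (by norm_num) h4
        have e1 : s₁.im - a ≤ b - a := by linarith
        have e2 : s₂.im - a ≤ b - a := by linarith
        calc (s₁.im - a) * (s₂.im - a) ≤ (b - a) * (b - a) :=
              mul_le_mul e1 e2 (by linarith) (by linarith)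
          _ = (b - a) ^ 2 := by ring
      · refine h3.trans ?_
        rw [neg_div, neg_nonpos]
        positivity
    refine h2.trans ?_
    rw [Finset.sum_ite_eq' Finset.univ i0, if_pos (Finset.mem_univ _)]
  have h2 := (abs_le.1 (Complex.abs_re_le_norm
    (∑ i, 1 / ((s₁ - pt (1 / 2) (y i)) * (s₂ - pt (1 / 2) (y i)))))).1
  linarith

private lemma ne_pt {s : ℂ} {v : ℝ} (h : s.im ≠ v) : s - pt (1 / 2) v ≠ 0 := by
  intro h0
  apply h
  have := congrArg Complex.im (sub_eq_zero.1 h0)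
  rwa [pt_im] at this

theorem mod_inj {B κ e t : ℝ} {k : ℕ} {y : Fin k → ℝ} {h : ℂ → ℂ} (hm : Mod B κ e t y h) {a b : ℝ}
    (hab : a < b) (hy : ∀ i, y i ≤ a ∨ b ≤ y i) (ha : ∃ i, y i = a)
    (hBab : 25 * B * (b - a) ^ 2 ≤ 1) {s₁ s₂ : ℂ} (h1 : Reg e t s₁) (h2 : Reg e t s₂)
    (ha1 : 10 * |s₁.re - 1 / 2| ≤ s₁.im - a) (hb1 : 10 * |s₁.re - 1 / 2| ≤ b - s₁.im)
    (ha2 : 10 * |s₂.re - 1 / 2| ≤ s₂.im - a) (hb2 : 10 * |s₂.re - 1 / 2| ≤ b - s₂.im)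
    (hi1 : a < s₁.im) (hi1' : s₁.im < b) (hi2 : a < s₂.im) (hi2' : s₂.im < b)
    (heq : Ph y h s₁ = Ph y h s₂) : s₁ = s₂ := by
  by_contra hne
  have hpos : 0 < ‖s₁ - s₂‖ := norm_pos_iff.2 (sub_ne_zero.2 hne)
  have hlow := sum_lower hy ha ha1 hb1 ha2 hb2 hi1 hi1' hi2 hi2'
  set S : ℂ := ∑ i, 1 / ((s₁ - pt (1 / 2) (y i)) * (s₂ - pt (1 / 2) (y i))) with hS
  have hn : ∀ i, s₁ - pt (1 / 2) (y i) ≠ 0 ∧ s₂ - pt (1 / 2) (y i) ≠ 0 := by
    intro i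
    rcases hy i with h3 | h3
    · exact ⟨ne_pt (by linarith : y i < s₁.im).ne', ne_pt (by linarith : y i < s₂.im).ne'⟩
    · exact ⟨ne_pt (by linarith : s₁.im < y i).ne, ne_pt (by linarith : s₂.im < y i).ne⟩
  have hdiff : (s₁ - s₂) * S = h s₁ - h s₂ := by
    have e1 : (s₁ - s₂) * S = ∑ i, 1 / (s₂ - pt (1 / 2) (y i)) - ∑ i, 1 / (s₁ - pt (1 / 2) (y i)) := by
      rw [hS, Finset.mul_sum, ← Finset.sum_sub_distrib]
      refine Finset.sum_congr rfl fun i _ => ?_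
      obtain ⟨h3, h4⟩ := hn i
      field_simp
      ring
    rw [e1]
    simp only [Ph] at heq
    linear_combination (-1 : ℂ) * heq
  have h3 := hm.lip s₁ s₂ h1 h2
  rw [← hdiff, norm_mul] at h3
  have h4 : ‖S‖ ≤ 20 * B := by
    by_contra hcon
    push Not at hcon
    have := mul_lt_mul_of_pos_left hcon hpos
    linarith [mul_comm (20 * B) ‖s₁ - s₂‖]
  have hB := hm.hB
  have hba : 0 < (b - a) ^ 2 := by
    have : 0 < b - a := by linarith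
    positivity
  have h5 : 9 / 10 / (b - a) ^ 2 ≤ 20 * B := hlow.trans h4
  rw [div_le_iff₀ hba] at h5
  nlinarith

theorem mod_simple {B κ e t : ℝ} {k : ℕ} {y : Fin k → ℝ} {h : ℂ → ℂ} (hm : Mod B κ e t y h) {a b : ℝ}
    (hab : a < b) (hy : ∀ i, y i ≤ a ∨ b ≤ y i) (ha : ∃ i, y i = a)
    (hBab : 25 * B * (b - a) ^ 2 ≤ 1) {s : ℂ} (h1 : |s.re - 1 / 2| < e) (h2 : |s.im - t| < 1 / 2)
    (hd : DifferentiableAt ℂ h s)
    (ha1 : 10 * |s.re - 1 / 2| ≤ s.im - a) (hb1 : 10 * |s.re - 1 / 2| ≤ b - s.im)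
    (hi1 : a < s.im) (hi1' : s.im < b) : deriv (Ph y h) s ≠ 0 := by
  have hlow := sum_lower hy ha ha1 hb1 ha1 hb1 hi1 hi1' hi1 hi1'
  set S : ℂ := ∑ i, 1 / ((s - pt (1 / 2) (y i)) * (s - pt (1 / 2) (y i))) with hS
  have hn : ∀ i, s - pt (1 / 2) (y i) ≠ 0 := by
    intro i
    rcases hy i with h3 | h3
    · exact ne_pt (by linarith : y i < s.im).ne'
    · exact ne_pt (by linarith : s.im < y i).ne
  have hder : HasDerivAt (Ph y h) (-S + deriv h s) s := by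
    have e1 : HasDerivAt (fun w => ∑ i, 1 / (w - pt (1 / 2) (y i)))
        (∑ i, -(1 / ((s - pt (1 / 2) (y i)) * (s - pt (1 / 2) (y i))))) s := by
      refine HasDerivAt.fun_sum fun i _ => ?_
      have e2 : HasDerivAt (fun w : ℂ => w - pt (1 / 2) (y i)) 1 s :=
        (hasDerivAt_id s).sub_const _
      have e3 := e2.inv (hn i)
      have e4 : (fun w : ℂ => 1 / (w - pt (1 / 2) (y i))) = (fun w => w - pt (1 / 2) (y i))⁻¹ := by
        funext w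
        rw [one_div, Pi.inv_apply]
      rw [e4]
      refine e3.congr_deriv ?_
      rw [neg_div, sq]
    rw [Finset.sum_neg_distrib] at e1
    exact e1.add hd.hasDerivAt
  rw [hder.deriv]
  intro h0
  have hB := hm.hB
  have h3 : ‖deriv h s‖ ≤ 20 * B := by
    refine hd.hasDerivAt.le_of_lip' (by positivity) ?_
    have hc1 : ∀ᶠ w in 𝓝 s, |w.re - 1 / 2| < e := by
      have : ContinuousAt (fun w : ℂ => |w.re - 1 / 2|) s := by fun_prop
      exact this.eventually (gt_mem_nhds h1)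
    have hc2 : ∀ᶠ w in 𝓝 s, |w.im - t| < 1 / 2 := by
      have : ContinuousAt (fun w : ℂ => |w.im - t|) s := by fun_prop
      exact this.eventually (gt_mem_nhds h2)
    filter_upwards [hc1, hc2] with w h4 h5
    exact hm.lip w s ⟨h4.le, h5.le⟩ ⟨h1.le, h2.le⟩
  have h4 : ‖S‖ ≤ 20 * B := by
    have : S = deriv h s := by linear_combination -h0
    rw [this]; exact h3
  have hba : 0 < (b - a) ^ 2 := by
    have : 0 < b - a := by linarith
    positivity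
  have h5 : 9 / 10 / (b - a) ^ 2 ≤ 20 * B := hlow.trans h4
  rw [div_le_iff₀ hba] at h5
  nlinarith

end Pool.Agent.ZPD
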