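import Pool.Agent.Lib.MP_af3d17_nt_h68.Defs

/-!
Row Z2. Existence of a zero of `ζ'` in a short gap, localized. This is `deriv_zero_of_pair_of`
(h98/Pair.lean) with `RH T0` replaced by `Free t 5` and with the stronger conclusion: `rolle` gives
`v ∈ (a, b)` with `Im (ζ'/ζ)(pt (1/2) v) = 0`, so `ζ'/ζ` is real there, equal to `- Re Lam / 2`, of norm
`≤ L = log v ≤ 2 log t` (`re_logDeriv_line`, `Lam_line`; `|v - t| ≤ 1`). Take `local_zeta` at height `v`
(`Free t 5` implies that all zeros in `closedBall (pt 10 v) (97/10)` are on the line, as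
`|Im z - v| ≤ 37/10` for them), `δ = min (v - a) (b - v)`, and apply `PairAux.core`: the zero `s` has
`‖s - pt (1/2) v‖ ≤ 4 L δ^2 ≤ 2 log t (b-a)^2` and `4 L δ^2 < δ`, so `a < Im s < b`. Note
`δ ≤ |v - y i|` because no zero lies between, and `1/δ^2 ≤ ∑ 1/(v-y i)^2` because `a` (or `b`) is a `y i`
(the zero `pt (1/2) a` is in the disc, so it is one of the `z i`).
-/

set_option autoImplicit false

namespace Pool.Agent.ZPD

open Filter Topology Metric Pool.Agent.ZP

theorem exists_in_gap : ∃ C T : ℝ, 0 < C ∧ 100 ≤ T ∧ ∀ t ≥ T, Free t 5 → ∀ a b : ℝ, |a - t| ≤ 1 / 4 →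
    a < b → C * Real.log t * (b - a) ≤ 1 → riemannZeta (pt (1 / 2) a) = 0 →
    riemannZeta (pt (1 / 2) b) = 0 →
    (∀ u : ℝ, a < u → u < b → riemannZeta (pt (1 / 2) u) ≠ 0) →
    ∃ s : ℂ, a < s.im ∧ s.im < b ∧ |s.re - 1 / 2| ≤ 2 * Real.log t * (b - a) ^ 2 ∧
      riemannZeta s ≠ 0 ∧ deriv riemannZeta s = 0 := by
  obtain ⟨C1, T1, hC1, hT1, hloc⟩ := local_zeta
  obtain ⟨C2, T2, hT2, hLam⟩ := Lam_strip (1 / 2) (1 / 2)
  refine ⟨128 + 600 * C1, max (T1 + 1) (max (T2 + 1) (C2 + 1)), by positivity,
    le_trans (by linarith) (le_max_left _ _), ?_⟩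
  intro t htT hfree a b hat hab hgap ha hb hab0
  obtain ⟨hat1, hat2⟩ := abs_le.1 hat
  set C : ℝ := 128 + 600 * C1 with hC
  have htT1 : T1 + 1 ≤ t := (le_max_left _ _).trans htT
  have htT2 : T2 + 1 ≤ t := ((le_max_left _ _).trans (le_max_right _ _)).trans htT
  have htC2 : C2 + 1 ≤ t := ((le_max_right _ _).trans (le_max_right _ _)).trans htT
  have ht100 : 101 ≤ t := by linarith
  have ht0 : 0 < t := by linarith
  have haT1 : T1 ≤ a := by linarith
  have haT2 : T2 ≤ a := by linarith
  have haC2 : C2 ≤ a := by linarith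
  have ha100 : 100 ≤ a := by linarith
  have ha0 : 0 < a := by linarith
  have hlogt : 4 ≤ Real.log t := by
    rw [Real.le_log_iff_exp_le ht0]
    have h1 : Real.exp 1 < 2.7182818286 := Real.exp_one_lt_d9
    have h2 : Real.exp 4 = (Real.exp 1) ^ 4 := by
      rw [← Real.exp_nat_mul]; norm_num
    rw [h2]
    have h3 : (Real.exp 1) ^ 4 ≤ 2.72 ^ 4 := by
      apply pow_le_pow_left₀ (Real.exp_pos 1).le
      linarith
    refine h3.trans ?_
    norm_num
    linarith
  have hC128 : 128 ≤ C := by rw [hC]; nlinarith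
  have hdpos : 0 < b - a := by linarith
  have hg0' : 128 * (Real.log t * (b - a)) ≤ 1 := by
    have h1 : 128 * (Real.log t * (b - a)) ≤ C * (Real.log t * (b - a)) :=
      mul_le_mul_of_nonneg_right hC128 (by positivity)
    linarith [hgap, h1, mul_assoc C (Real.log t) (b - a)]
  have hg1' : 600 * C1 * (Real.log t * (b - a)) ≤ 1 := by
    have h5 : 600 * C1 ≤ C := by rw [hC]; linarith
    have h1 : 600 * C1 * (Real.log t * (b - a)) ≤ C * (Real.log t * (b - a)) :=
      mul_le_mul_of_nonneg_right h5 (by positivity)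
    linarith [hgap, h1, mul_assoc C (Real.log t) (b - a)]
  have hd1 : b - a ≤ 1 / 512 := by nlinarith
  obtain ⟨v, hav, hvb, hv0⟩ := PairAux.rolle hab ha0 ha hb hab0
  have hvpos : 0 < v := by linarith
  have hvT1 : T1 ≤ v := by linarith
  have hzv := hab0 v hav hvb
  obtain ⟨k, z, g, hk, hz, hgan, hfac, hg0, hgl⟩ := hloc v hvT1
  -- the zeros are on the line
  have hzre : ∀ i, (z i).re = 1 / 2 := by
    intro i
    obtain ⟨h1, h2⟩ := hz i
    rw [mem_closedBall, dist_eq_norm] at h1
    have h3 := (Complex.abs_re_le_norm (z i - pt 10 v)).trans h1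
    have h4 := (Complex.abs_im_le_norm (z i - pt 10 v)).trans h1
    rw [Complex.sub_re, pt_re, abs_le] at h3
    rw [Complex.sub_im, pt_im, abs_le] at h4
    have hre1 : (z i).re < 1 := by
      by_contra h5
      exact riemannZeta_ne_zero_of_one_le_re (not_lt.mp h5) h2
    have him : |(z i).im - v| ≤ 37 / 10 := by
      have h5 : ‖z i - pt 10 v‖ ^ 2 ≤ (97 / 10) ^ 2 := pow_le_pow_left₀ (norm_nonneg _) h1 2
      rw [← Complex.normSq_eq_norm_sq, Complex.normSq_apply, Complex.sub_re, Complex.sub_im, pt_re,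
        pt_im] at h5
      apply abs_le_of_sq_le_sq _ (by norm_num)
      nlinarith
    obtain ⟨h6, h7⟩ := abs_le.1 him
    refine hfree (z i) ⟨h2, by linarith, hre1, by linarith⟩ ?_
    rw [abs_le]
    constructor <;> linarith
  have hzpt : ∀ i, z i = pt (1 / 2) (z i).im := by
    intro i
    apply Complex.ext
    · rw [hzre i]; rfl
    · rfl
  set y : Fin k → ℝ := fun i => (z i).im with hy
  -- distances
  have hyout : ∀ i, y i ≤ a ∨ b ≤ y i := by
    intro i
    by_contra hcon
    push Not at hcon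
    apply hab0 (y i) hcon.1 hcon.2
    rw [hy, ← hzpt i]
    exact (hz i).2
  have hfind : ∀ u : ℝ, a ≤ u → u ≤ b → riemannZeta (pt (1 / 2) u) = 0 → ∃ i, y i = u := by
    intro u hu1 hu2 hu
    have hdist : dist (pt (1 / 2) u) (pt 10 v) ≤ 97 / 10 := by
      rw [dist_eq_norm]
      have h1 : ‖pt (1 / 2) u - pt 10 v‖ ≤ |(pt (1 / 2) u - pt 10 v).re|
          + |(pt (1 / 2) u - pt 10 v).im| := Complex.norm_le_abs_re_add_abs_im _
      refine h1.trans ?_
      rw [Complex.sub_re, Complex.sub_im, pt_re, pt_re, pt_im, pt_im]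
      have h2 : |(1 / 2 : ℝ) - 10| = 19 / 2 := by norm_num [abs_of_neg]
      have h3 : |u - v| ≤ 1 / 10 := by
        rw [abs_le]
        constructor <;> linarith
      rw [h2]
      linarith
    have h1 : pt (1 / 2) u ∈ closedBall (pt 10 v) (98 / 10) := by
      rw [mem_closedBall]
      linarith
    have h2 : pt (1 / 2) u ∈ closedBall (pt 10 v) (97 / 10) := hdist
    have h3 := hfac _ h1
    rw [hu] at h3
    rcases mul_eq_zero.mp h3.symm with h4 | h4
    · rw [Finset.prod_eq_zero_iff] at h4
      obtain ⟨i, -, hi⟩ := h4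
      refine ⟨i, ?_⟩
      have h5 := congrArg Complex.im (sub_eq_zero.mp hi)
      rw [pt_im] at h5
      exact h5.symm
    · exact absurd h4 (hg0 _ h2)
  obtain ⟨ia, hia⟩ := hfind a le_rfl hab.le ha
  obtain ⟨ib, hib⟩ := hfind b hab.le le_rfl hb
  set δ : ℝ := min (v - a) (b - v) with hδ
  have hδpos : 0 < δ := lt_min (by linarith) (by linarith)
  have hδle : δ ≤ (b - a) / 2 := by
    have h1 : δ ≤ v - a := min_le_left _ _
    have h2 : δ ≤ b - v := min_le_right _ _
    linarith
  have hlogv : Real.log v ≤ 2 * Real.log t := by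
    have h1 : v ≤ t ^ 2 := by nlinarith
    calc Real.log v ≤ Real.log (t ^ 2) := Real.log_le_log hvpos h1
      _ = 2 * Real.log t := by rw [Real.log_pow]; norm_num
  have hlogv1 : 1 ≤ Real.log v := by
    rw [Real.le_log_iff_exp_le hvpos]
    have h1 : Real.exp 1 < 2.7182818286 := Real.exp_one_lt_d9
    norm_num at h1
    linarith
  have hlogv0 : 0 < Real.log v := by linarith
  have hsub : ball (pt (1 / 2) v) (1 / 10) ⊆ closedBall (pt 10 v) (96 / 10) := by
    intro s hs
    rw [mem_ball] at hs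
    rw [mem_closedBall]
    have h1 : dist (pt (1 / 2) v) (pt 10 v) = 19 / 2 := by
      rw [dist_eq_norm]
      have h2 : pt (1 / 2) v - pt 10 v = ((-(19 / 2) : ℝ) : ℂ) := by
        apply Complex.ext
        · simp; norm_num
        · simp
      rw [h2, Complex.norm_real, Real.norm_eq_abs, abs_neg, abs_of_pos (by norm_num)]
    calc dist s (pt 10 v) ≤ dist s (pt (1 / 2) v) + dist (pt (1 / 2) v) (pt 10 v) :=
          dist_triangle _ _ _
      _ ≤ 1 / 10 + 19 / 2 := by rw [h1]; linarith
      _ = 96 / 10 := by norm_num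
  have hLδ : Real.log v * δ ≤ 1 / 64 := by
    have h1 : Real.log v * δ ≤ 2 * Real.log t * ((b - a) / 2) :=
      mul_le_mul hlogv hδle hδpos.le (by linarith)
    linarith
  obtain ⟨s, hs1, hs2, hs3⟩ := PairAux.core riemannZeta g v y (L := Real.log v) (M := C1 * Real.log v)
    (δ := δ) hlogv0 hδpos hLδ
    (by
      have h1 : δ ^ 2 ≤ ((b - a) / 2) ^ 2 := by gcongr
      have h2 : 300 * (C1 * Real.log v) * δ ^ 2 ≤
          300 * (C1 * (2 * Real.log t)) * ((b - a) / 2) ^ 2 := by
        gcongr
      refine h2.trans ?_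
      have h6 : 300 * (C1 * (2 * Real.log t)) * ((b - a) / 2) ^ 2
          = 600 * C1 * (Real.log t * (b - a)) * ((b - a) / 4) := by ring
      rw [h6]
      have h8 : 0 ≤ 600 * C1 * (Real.log t * (b - a)) := by positivity
      nlinarith)
    (by linarith)
    (by
      intro s hs
      have h1 : s ∈ closedBall (pt 10 v) (98 / 10) :=
        closedBall_subset_closedBall (by norm_num) (hsub hs)
      rw [hfac s h1]
      congr 1
      apply Finset.prod_congr rfl
      intro i _
      rw [hy, ← hzpt i])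
    (by
      intro s hs
      exact hgan s (closedBall_subset_closedBall (by norm_num) (hsub hs)))
    (by
      intro s hs
      exact hg0 s (closedBall_subset_closedBall (by norm_num) (hsub hs)))
    (by
      intro s hs
      exact hgl s (hsub hs))
    (by
      intro i
      rcases hyout i with h1 | h1
      · refine (min_le_left _ _).trans ?_
        rw [abs_of_pos (by linarith)]
        linarith
      · refine (min_le_right _ _).trans ?_
        rw [abs_of_neg (by linarith)]
        linarith)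
    (by
      have hnn : ∀ i ∈ (Finset.univ : Finset (Fin k)), 0 ≤ 1 / (v - y i) ^ 2 := by
        intro i _
        positivity
      rcases min_choice (v - a) (b - v) with h1 | h1
      · rw [hδ, h1]
        calc 1 / (v - a) ^ 2 = 1 / (v - y ia) ^ 2 := by rw [hia]
          _ ≤ ∑ i, 1 / (v - y i) ^ 2 := Finset.single_le_sum hnn (Finset.mem_univ ia)
      · rw [hδ, h1]
        calc 1 / (b - v) ^ 2 = 1 / (v - y ib) ^ 2 := by rw [hib]; congr 1; ring
          _ ≤ ∑ i, 1 / (v - y i) ^ 2 := Finset.single_le_sum hnn (Finset.mem_univ ib))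
    (by
      have h1 := re_logDeriv_line hvpos hzv
      have h2 := hLam (pt (1 / 2) v) le_rfl le_rfl (by rw [pt_im]; linarith)
      rw [pt_im] at h2
      have h3 : |(Lam (pt (1 / 2) v)).re - Lt v| ≤ C2 / v := by
        have h4 := (Complex.abs_re_le_norm (Lam (pt (1 / 2) v) - (Lt v : ℂ))).trans h2
        simpa using h4
      have h5 : C2 / v ≤ 1 := by
        rw [div_le_one hvpos]
        linarith
      have h6 : Lt v ≤ Real.log v := by
        unfold Lt
        apply Real.log_le_log (by positivity)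
        rw [div_le_iff₀ (by positivity)]
        nlinarith [Real.pi_gt_three]
      have h7 : 0 ≤ Lt v := by
        unfold Lt
        apply Real.log_nonneg
        rw [le_div_iff₀ (by positivity)]
        nlinarith [Real.pi_lt_four]
      have h8 : |(Lam (pt (1 / 2) v)).re| ≤ 2 * Real.log v := by
        rw [abs_le] at h3 ⊢
        constructor <;> linarith
      have h9 : logDeriv riemannZeta (pt (1 / 2) v)
          = (((logDeriv riemannZeta (pt (1 / 2) v)).re : ℝ) : ℂ) := by
        apply Complex.ext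
        · simp
        · rw [hv0]; simp
      rw [h9, Complex.norm_real, Real.norm_eq_abs]
      rw [abs_le] at h8 ⊢
      constructor <;> linarith)
  have hsmall : 4 * Real.log v * δ ^ 2 < δ := by
    have h1 : 4 * Real.log v * δ ^ 2 = 4 * (Real.log v * δ) * δ := by ring
    rw [h1]
    nlinarith
  have hsim := (Complex.abs_im_le_norm (s - pt (1 / 2) v)).trans hs1
  rw [Complex.sub_im, pt_im] at hsim
  obtain ⟨h6, h7⟩ := abs_le.1 hsim
  have h8 : δ ≤ v - a := min_le_left _ _
  have h9 : δ ≤ b - v := min_le_right _ _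
  refine ⟨s, by linarith, by linarith, ?_, hs2, hs3⟩
  have hsre := (Complex.abs_re_le_norm (s - pt (1 / 2) v)).trans hs1
  rw [Complex.sub_re, pt_re] at hsre
  refine hsre.trans ?_
  calc 4 * Real.log v * δ ^ 2 ≤ 4 * (2 * Real.log t) * ((b - a) / 2) ^ 2 := by gcongr
    _ = 2 * Real.log t * (b - a) ^ 2 := by ring

end Pool.Agent.ZPD
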