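import Pool.Agent.Lib.MP_af3d17_nt_h68.M1
import Pool.Agent.Lib.MP_af3d17_nt_h68.M2
import Pool.Agent.Lib.MP_af3d17_nt_h68.M3
import Pool.Agent.Lib.MP_af3d17_nt_h68.Z1
import Pool.Agent.Lib.MP_af3d17_nt_h68.Z2

/-!
Row Z3. The local bijection, first half (`t = a`). `mod_of_free` at `a`: constants `C₁, κ, e`,
`B = C₁ log a`. `exists_in_gap` gives `s` in the gap with `|x| ≤ 2 log a (b-a)^2`. Everything is in `Reg e a`
since `b - a` is tiny. `pt (1/2) a` and `pt (1/2) b` are zeros in `Reg`, so `a`, `b` are values of `y`, and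
no `y i` lies in `(a, b)`. A point `s'` of the box with `ζ'(s') = 0` has `ζ(s') ≠ 0` (the zeros in `Reg`
are `pt (1/2) (y i)`), so `Ph y h s' = 0` and by `mod_loc` `0 < x' ≤ 2B (s'.im-a)^2`,
`x' ≤ 2B (b-s'.im)^2`, so `10 x' ≤ s'.im - a, b - s'.im` as `20 B (b-a) ≤ 1`: `mod_inj` gives
uniqueness and, with `ζ''(s) = ζ(s) Φ'(s)` (`ζ' = ζ Φ` near `s`), `mod_simple` gives
`deriv (deriv ζ) s ≠ 0`. Lower bound for `x`: by `mod_near` some `i` has `κ (s.im - y i)^2 ≤ x`; the
nearer of `a`, `b` is at least as near; `mod_gap` gives `y i' < s.im < y j`,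
`κ (y j - y i')^2 ≤ 64 B x`, and `y i' ≤ a`, `b ≤ y j`. Upper bound: the terms of `a` and `b` alone.
-/

set_option autoImplicit false

namespace Pool.Agent.ZPD

open Filter Topology Metric Pool.Agent.ZP

/-- the two nearest terms -/
private lemma two_terms {x A D δ : ℝ} (hx : 0 < x) (hA : 0 < A) (hD : 0 < D) (hδ : 0 ≤ δ) (hδ1 : δ ≤ 1)
    (h1 : x ^ 2 ≤ δ * A ^ 2) (h2 : x ^ 2 ≤ δ * D ^ 2) :
    x * (1 - δ) * (8 / (A + D) ^ 2) ≤ x / (x ^ 2 + A ^ 2) + x / (x ^ 2 + D ^ 2) := by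
  have key : ∀ V : ℝ, 0 < V → x ^ 2 ≤ δ * V ^ 2 → x * (1 - δ) * (1 / V ^ 2) ≤ x / (x ^ 2 + V ^ 2) := by
    intro V hV hxV
    rw [mul_one_div, div_le_div_iff₀ (by positivity) (by positivity)]
    have h3 : (1 - δ) * (x ^ 2 + V ^ 2) ≤ V ^ 2 := by
      have h4 : 0 ≤ δ * x ^ 2 := by positivity
      nlinarith
    have h5 : x * (1 - δ) * (x ^ 2 + V ^ 2) = x * ((1 - δ) * (x ^ 2 + V ^ 2)) := by ring
    rw [h5]
    gcongr
  have h3 : 8 / (A + D) ^ 2 ≤ 1 / A ^ 2 + 1 / D ^ 2 := by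
    rw [div_add_div _ _ (by positivity) (by positivity), div_le_div_iff₀ (by positivity)
      (by positivity)]
    have g1 : 2 * (A * D) ≤ A ^ 2 + D ^ 2 := by nlinarith [sq_nonneg (A - D)]
    have g2 : 4 * (A * D) ≤ (A + D) ^ 2 := by nlinarith [sq_nonneg (A - D)]
    have g3 := mul_le_mul g1 g2 (by positivity) (by positivity)
    nlinarith
  have h4 := key A hA h1
  have h5 := key D hD h2
  have h6 : 0 ≤ x * (1 - δ) := mul_nonneg hx.le (by linarith)
  calc x * (1 - δ) * (8 / (A + D) ^ 2) ≤ x * (1 - δ) * (1 / A ^ 2 + 1 / D ^ 2) := by gcongr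
    _ = x * (1 - δ) * (1 / A ^ 2) + x * (1 - δ) * (1 / D ^ 2) := by ring
    _ ≤ _ := add_le_add h4 h5

theorem gap_unique {ε : ℝ} (hε : 0 < ε) : ∃ C T : ℝ, 1 ≤ C ∧ 100 ≤ T ∧ ∀ a b : ℝ, T ≤ a →
    Free a 5 → a < b → C * Real.log a * (b - a) ≤ 1 → riemannZeta (pt (1 / 2) a) = 0 →
    riemannZeta (pt (1 / 2) b) = 0 →
    (∀ u : ℝ, a < u → u < b → riemannZeta (pt (1 / 2) u) ≠ 0) →
    ∃ s : ℂ, (a < s.im ∧ s.im < b ∧ deriv riemannZeta s = 0 ∧ deriv (deriv riemannZeta) s ≠ 0 ∧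
      |s.re - 1 / 2| * (C * Real.log a) ≤ 1 ∧
      (b - a) ^ 2 ≤ C * Real.log a * (s.re - 1 / 2) ∧
      s.re - 1 / 2 ≤ (1 / 16 + ε) * Real.log a * (b - a) ^ 2) ∧
      ∀ s' : ℂ, a < s'.im → s'.im < b → |s'.re - 1 / 2| * (C * Real.log a) ≤ 1 →
        deriv riemannZeta s' = 0 → s' = s := by
  obtain ⟨C₁, κ, e, K, T₁, hC₁, hκ, he, hK, hT₁, hmod⟩ := mod_of_free
  obtain ⟨C₂, T₂, hC₂, hT₂, hgap⟩ := exists_in_gap
  have hq1 : 0 < 4 / e := by positivity
  have hq2 : 0 < 64 * C₁ / κ := by positivity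
  obtain ⟨δ, hδdef⟩ : ∃ δ : ℝ, δ = ε / (1 / 8 + 2 * ε) := ⟨_, rfl⟩
  have hδ0 : 0 < δ := by rw [hδdef]; positivity
  have hδ1 : δ ≤ 1 / 2 := by
    rw [hδdef, div_le_iff₀ (by positivity)]
    linarith
  have hδε : δ * (1 / 8 + 2 * ε) = ε := by rw [hδdef]; field_simp
  have hq3 : 0 < 4 * C₁ / δ := by positivity
  set C : ℝ := 4 + C₂ + 4 / e + 40 * C₁ + 64 * C₁ / κ + 4 * C₁ / δ with hCdef
  refine ⟨C, max (max T₁ T₂) (Real.exp ((K + 1) / (4 * ε))), by linarith,
    le_max_of_le_left (le_max_of_le_left hT₁), ?_⟩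
  intro a b ha hF hab hCab hza hzb hno
  have haT₁ : T₁ ≤ a := ((le_max_left _ _).trans (le_max_left _ _)).trans ha
  have haT₂ : T₂ ≤ a := ((le_max_right _ _).trans (le_max_left _ _)).trans ha
  have haT₃ : Real.exp ((K + 1) / (4 * ε)) ≤ a := (le_max_right _ _).trans ha
  have ha100 : 100 ≤ a := hT₁.trans haT₁
  have hL1 : 1 ≤ Real.log a := by
    rw [Real.le_log_iff_exp_le (by linarith)]
    have := Real.exp_one_lt_d9
    linarith
  set L : ℝ := Real.log a with hLdef
  have hL0 : 0 < L := by linarith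
  have hd0 : 0 < b - a := by linarith
  have hc : ∀ c, 0 ≤ c → c ≤ C → c * L * (b - a) ≤ 1 := by
    intro c _ hcC
    refine le_trans ?_ hCab
    exact mul_le_mul_of_nonneg_right (mul_le_mul_of_nonneg_right hcC hL0.le) hd0.le
  have hc' : ∀ c, 0 ≤ c → c ≤ C → c * (b - a) ≤ 1 := by
    intro c hc0 hcC
    refine le_trans ?_ (hc c hc0 hcC)
    refine mul_le_mul_of_nonneg_right ?_ hd0.le
    nlinarith
  obtain ⟨k, y, h, hm, hup, hdiff, hlog, hy0, hz⟩ := hmod a haT₁ hF
  have hLK : (K + 1) / (4 * ε) ≤ L := by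
    rw [hLdef, Real.le_log_iff_exp_le (by linarith)]
    exact haT₃
  have hLK' : (K + 1) / 8 ≤ ε / 2 * L := by
    rw [div_le_iff₀ (by positivity)] at hLK
    linarith
  have hB0 : 0 < C₁ * L := by positivity
  have hd4 : b - a ≤ 1 / 4 := by
    have := hc' 4 (by norm_num) (by linarith)
    linarith
  -- the zeros `a`, `b` are values of `y`
  have hya : ∃ i, y i = a := by
    obtain ⟨i, hi⟩ := hz (pt (1 / 2) a) ⟨by simp [he.le], by simp⟩ hza
    refine ⟨i, ?_⟩
    have := congrArg Complex.im hi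
    simpa using this.symm
  have hyb : ∃ i, y i = b := by
    obtain ⟨i, hi⟩ := hz (pt (1 / 2) b) ⟨by simp [he.le], by
      rw [pt_im, abs_of_pos hd0]
      linarith⟩ hzb
    refine ⟨i, ?_⟩
    have := congrArg Complex.im hi
    simpa using this.symm
  have hyab : ∀ i, y i ≤ a ∨ b ≤ y i := by
    intro i
    by_contra hcon
    push Not at hcon
    exact hno (y i) hcon.1 hcon.2 (hy0 i).1
  have hBab : 25 * (C₁ * L) * (b - a) ^ 2 ≤ 1 := by
    have h1 := hc (25 * C₁) (by positivity) (by linarith)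
    have h2 : 25 * (C₁ * L) * (b - a) ^ 2 = (25 * C₁ * L * (b - a)) * (b - a) := by ring
    rw [h2]
    have h3 : 0 ≤ 25 * C₁ * L * (b - a) := by positivity
    nlinarith
  have key : ∀ p : ℂ, a < p.im → p.im < b → |p.re - 1 / 2| * (C * L) ≤ 1 →
      deriv riemannZeta p = 0 →
      |p.re - 1 / 2| < e ∧ |p.im - a| < 1 / 2 ∧ riemannZeta p ≠ 0 ∧
      (∀ i, p ≠ pt (1 / 2) (y i)) ∧ Ph y h p = 0 ∧
      |p.re - 1 / 2| * (2 * (C₁ * L)) ≤ 1 ∧ 0 < p.re - 1 / 2 ∧
      10 * |p.re - 1 / 2| ≤ p.im - a ∧ 10 * |p.re - 1 / 2| ≤ b - p.im := by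
    intro p hp1 hp2 hp3 hp4
    have hx0 := abs_nonneg (p.re - 1 / 2)
    have hCL : 4 / e ≤ C * L := by
      have h1 : 4 / e ≤ C := by linarith
      have h2 : C ≤ C * L := by nlinarith
      linarith
    have hxe : |p.re - 1 / 2| < e := by
      have h1 : |p.re - 1 / 2| * (4 / e) ≤ 1 := le_trans (mul_le_mul_of_nonneg_left hCL hx0) hp3
      have h2 : |p.re - 1 / 2| * 4 ≤ e := by
        have h3 : |p.re - 1 / 2| * (4 / e) * e = |p.re - 1 / 2| * 4 := by field_simp
        rw [← h3]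
        calc |p.re - 1 / 2| * (4 / e) * e ≤ 1 * e := mul_le_mul_of_nonneg_right h1 he.le
          _ = e := one_mul e
      linarith
    have him : |p.im - a| < 1 / 2 := by
      rw [abs_of_pos (by linarith)]
      linarith
    have hreg : Reg e a p := ⟨hxe.le, him.le⟩
    have hζ : riemannZeta p ≠ 0 := by
      intro h0
      obtain ⟨i, hi⟩ := hz p hreg h0
      apply hno p.im hp1 hp2
      have hpe : pt (1 / 2) p.im = p := by
        rw [hi, pt_im]
      rw [hpe]
      exact h0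
    have hne : ∀ i, p ≠ pt (1 / 2) (y i) := by
      intro i hi
      apply hζ
      rw [hi]
      exact (hy0 i).1
    have hPh : Ph y h p = 0 := by
      rw [← hlog p hreg hζ, logDeriv_apply, hp4, zero_div]
    have hxB : |p.re - 1 / 2| * (2 * (C₁ * L)) ≤ 1 := by
      refine le_trans (mul_le_mul_of_nonneg_left ?_ hx0) hp3
      have h1 : 2 * C₁ ≤ C := by linarith
      calc 2 * (C₁ * L) = 2 * C₁ * L := by ring
        _ ≤ C * L := mul_le_mul_of_nonneg_right h1 hL0.le
    obtain ⟨hpos, hle⟩ := mod_loc hm hreg hxB hne hPh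
    have h20 : 20 * C₁ * L * (b - a) ≤ 1 := hc (20 * C₁) (by positivity) (by linarith)
    obtain ⟨ia, hia⟩ := hya
    obtain ⟨ib, hib⟩ := hyb
    have h1 := hle ia
    have h2 := hle ib
    rw [hia] at h1
    rw [hib] at h2
    refine ⟨hxe, him, hζ, hne, hPh, hxB, hpos, ?_, ?_⟩
    · rw [abs_of_pos hpos]
      have h3 : 0 < p.im - a := by linarith
      have h4 : 20 * C₁ * L * (p.im - a) ≤ 1 := by
        refine le_trans ?_ h20
        exact mul_le_mul_of_nonneg_left (by linarith) (by positivity)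
      have h5 : 10 * (2 * (C₁ * L) * (p.im - a) ^ 2) = (20 * C₁ * L * (p.im - a)) * (p.im - a) := by
        ring
      calc 10 * (p.re - 1 / 2) ≤ 10 * (2 * (C₁ * L) * (p.im - a) ^ 2) := by linarith
        _ = (20 * C₁ * L * (p.im - a)) * (p.im - a) := h5
        _ ≤ 1 * (p.im - a) := mul_le_mul_of_nonneg_right h4 h3.le
        _ = p.im - a := one_mul _
    · rw [abs_of_pos hpos]
      have h3 : 0 < b - p.im := by linarith
      have h4 : 20 * C₁ * L * (b - p.im) ≤ 1 := by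
        refine le_trans ?_ h20
        exact mul_le_mul_of_nonneg_left (by linarith) (by positivity)
      have h5 : 10 * (2 * (C₁ * L) * (p.im - b) ^ 2) = (20 * C₁ * L * (b - p.im)) * (b - p.im) := by
        ring
      calc 10 * (p.re - 1 / 2) ≤ 10 * (2 * (C₁ * L) * (p.im - b) ^ 2) := by linarith
        _ = (20 * C₁ * L * (b - p.im)) * (b - p.im) := h5
        _ ≤ 1 * (b - p.im) := mul_le_mul_of_nonneg_right h4 h3.le
        _ = b - p.im := one_mul _
  obtain ⟨s, hs1, hs2, hs3, hs4, hs5⟩ := hgap a haT₂ hF a b (by simp) hab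
    (hc C₂ hC₂.le (by linarith)) hza hzb hno
  have hs6 : |s.re - 1 / 2| * (C * L) ≤ 1 := by
    have h1 : |s.re - 1 / 2| * (C * L) ≤ 2 * L * (b - a) ^ 2 * (C * L) :=
      mul_le_mul_of_nonneg_right hs3 (by positivity)
    have h2 : 2 * L * (b - a) ^ 2 * (C * L) = (2 * L * (b - a)) * (C * L * (b - a)) := by ring
    have h3 := hc 2 (by norm_num) (by linarith)
    have h4 : 0 ≤ 2 * L * (b - a) := by positivity
    have h5 : 0 ≤ C * L * (b - a) := by positivity
    rw [h2] at h1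
    refine h1.trans ?_
    calc (2 * L * (b - a)) * (C * L * (b - a)) ≤ 1 * 1 := mul_le_mul h3 hCab h5 (by norm_num)
      _ = 1 := one_mul 1
  obtain ⟨hse, hsi, hsζ, hsne, hsPh, hsB, hspos, hsa, hsb⟩ := key s hs1 hs2 hs6 hs5
  have hsreg : Reg e a s := ⟨hse.le, hsi.le⟩
  -- smallness of `x`
  have hxg : s.re - 1 / 2 ≤ 2 * L * (b - a) ^ 2 := by
    rw [abs_of_pos hspos] at hs3
    exact hs3
  have hCx : C * (L * (s.re - 1 / 2)) ≤ 2 := by
    have h1 : C * (L * (s.re - 1 / 2)) ≤ C * (L * (2 * L * (b - a) ^ 2)) := by gcongr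
    have h2 : C * (L * (2 * L * (b - a) ^ 2)) = 2 * ((C * L * (b - a)) * (L * (b - a))) := by ring
    have h3 : 0 ≤ L * (b - a) := by positivity
    have h4 : L * (b - a) ≤ 1 := by
      have := hc 1 (by norm_num) (by linarith)
      rwa [one_mul] at this
    have h5 : 0 ≤ C * L * (b - a) := by positivity
    have h6 : (C * L * (b - a)) * (L * (b - a)) ≤ 1 := mul_le_one₀ hCab h3 h4
    linarith
  have hLx : 0 < L * (s.re - 1 / 2) := by positivity
  refine ⟨s, ⟨hs1, hs2, hs5, ?_, hs6, ?_, ?_⟩, ?_⟩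
  · -- simple zero
    have hds := hdiff s hsreg
    have hP' := mod_simple hm hab hyab hya hBab hse hsi hds hsa hsb hs1 hs2
    have hs_ne_one : s ≠ 1 := by
      intro h1
      have := congrArg Complex.im h1
      rw [Complex.one_im] at this
      linarith
    have hζd : DifferentiableAt ℂ riemannZeta s := differentiableAt_riemannZeta hs_ne_one
    have hPd : DifferentiableAt ℂ (Ph y h) s := by
      unfold Ph
      refine DifferentiableAt.add ?_ hds
      refine DifferentiableAt.fun_sum fun i _ => ?_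
      refine DifferentiableAt.div (differentiableAt_const _)
        (differentiableAt_id.sub (differentiableAt_const _)) ?_
      exact sub_ne_zero.mpr (hsne i)
    have hev : deriv riemannZeta =ᶠ[𝓝 s] fun z => riemannZeta z * Ph y h z := by
      have e1 : ∀ᶠ z in 𝓝 s, |z.re - 1 / 2| < e := by
        have hcont : ContinuousAt (fun z : ℂ => |z.re - 1 / 2|) s :=
          ((Complex.continuous_re.sub continuous_const).abs).continuousAt
        exact hcont.eventually_lt_const hse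
      have e2 : ∀ᶠ z in 𝓝 s, |z.im - a| < 1 / 2 := by
        have hcont : ContinuousAt (fun z : ℂ => |z.im - a|) s :=
          ((Complex.continuous_im.sub continuous_const).abs).continuousAt
        exact hcont.eventually_lt_const hsi
      have e3 : ∀ᶠ z in 𝓝 s, riemannZeta z ≠ 0 := hζd.continuousAt.eventually_ne hsζ
      filter_upwards [e1, e2, e3] with z h1 h2 h3
      rw [← hlog z ⟨h1.le, h2.le⟩ h3, logDeriv_apply]
      field_simp
    rw [hev.deriv_eq]
    have hmul := (hζd.hasDerivAt.mul hPd.hasDerivAt).deriv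
    have hfun : (fun z => riemannZeta z * Ph y h z) = riemannZeta * Ph y h := rfl
    rw [hfun, hmul, hsPh, mul_zero, zero_add]
    exact mul_ne_zero hsζ hP'
  · -- lower bound
    have h16 : 16 * (C₁ * L) * (s.re - 1 / 2) ≤ κ := by
      have h1 : 64 * C₁ / κ ≤ C := by linarith
      rw [div_le_iff₀ hκ] at h1
      have h2 : 64 * C₁ * (L * (s.re - 1 / 2)) ≤ C * κ * (L * (s.re - 1 / 2)) := by gcongr
      have h3 : C * κ * (L * (s.re - 1 / 2)) = κ * (C * (L * (s.re - 1 / 2))) := by ring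
      have h4 : κ * (C * (L * (s.re - 1 / 2))) ≤ κ * 2 := by gcongr
      linarith
    obtain ⟨i', j, hi', hj, hij⟩ := mod_gap hm hsreg hsB hsne hsPh h16
    have h1 : y i' ≤ a := by
      rcases hyab i' with h | h
      · exact h
      · linarith
    have h2 : b ≤ y j := by
      rcases hyab j with h | h
      · linarith
      · exact h
    have h3 : (b - a) ^ 2 ≤ (y j - y i') ^ 2 := pow_le_pow_left₀ hd0.le (by linarith) 2
    have h4 : κ * (b - a) ^ 2 ≤ 64 * (C₁ * L) * (s.re - 1 / 2) :=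
      (mul_le_mul_of_nonneg_left h3 hκ.le).trans hij
    have h5 : (b - a) ^ 2 ≤ 64 * C₁ / κ * L * (s.re - 1 / 2) := by
      have h6 : 64 * C₁ / κ * L * (s.re - 1 / 2)
          = (64 * (C₁ * L) * (s.re - 1 / 2)) / κ := by
        field_simp
      rw [h6, le_div_iff₀ hκ]
      linarith
    refine h5.trans ?_
    refine mul_le_mul_of_nonneg_right ?_ hspos.le
    exact mul_le_mul_of_nonneg_right (by linarith) (by positivity)
  · -- upper bound
    obtain ⟨ia, hia⟩ := hya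
    obtain ⟨ib, hib⟩ := hyb
    have hiab : ia ≠ ib := by
      intro h1
      rw [h1, hib] at hia
      linarith
    set x := s.re - 1 / 2 with hxdef
    obtain ⟨-, hle⟩ := mod_loc hm hsreg hsB hsne hsPh
    rw [← hxdef] at hle
    have hBx : 2 * (C₁ * L) * x ≤ δ := by
      have h1 : 4 * C₁ / δ ≤ C := by linarith
      rw [div_le_iff₀ hδ0] at h1
      have h2 : 4 * C₁ * (L * x) ≤ C * δ * (L * x) := by gcongr
      have h3 : C * δ * (L * x) = δ * (C * (L * x)) := by ring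
      have h4 : δ * (C * (L * x)) ≤ δ * 2 := by gcongr
      linarith
    have hxu : ∀ i, x ^ 2 ≤ δ * (s.im - y i) ^ 2 := by
      intro i
      calc x ^ 2 = x * x := sq x
        _ ≤ x * (2 * (C₁ * L) * (s.im - y i) ^ 2) := by gcongr; exact hle i
        _ = (2 * (C₁ * L) * x) * (s.im - y i) ^ 2 := by ring
        _ ≤ δ * (s.im - y i) ^ 2 := by gcongr
    have hxa := hxu ia
    have hxb := hxu ib
    rw [hia] at hxa
    rw [hib, show (s.im - b) ^ 2 = (b - s.im) ^ 2 by ring] at hxb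
    have h2t := two_terms hspos (show 0 < s.im - a by linarith) (show 0 < b - s.im by linarith)
      hδ0.le (by linarith) hxa hxb
    rw [show s.im - a + (b - s.im) = b - a by ring] at h2t
    have hsum := re_eq hsPh
    rw [← hxdef] at hsum
    have h3 : x / (x ^ 2 + (s.im - a) ^ 2) + x / (x ^ 2 + (b - s.im) ^ 2) ≤ -(h s).re := by
      rw [← hsum]
      have h4 : ∑ i ∈ {ia, ib}, x / (x ^ 2 + (s.im - y i) ^ 2) ≤
          ∑ i, x / (x ^ 2 + (s.im - y i) ^ 2) := by
        refine Finset.sum_le_sum_of_subset_of_nonneg (Finset.subset_univ _) fun i _ _ => ?_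
        positivity
      rw [Finset.sum_pair hiab, hia, hib, show (s.im - b) ^ 2 = (b - s.im) ^ 2 by ring] at h4
      exact h4
    have h4 := hup s hsreg
    rw [← hLdef, ← hxdef, abs_of_pos hspos] at h4
    have h5 : 20 * (C₁ * L) * x ≤ 1 := by
      have h6 : 40 * C₁ * (L * x) ≤ C * (L * x) := by gcongr; linarith
      linarith
    have h6 : x * (1 - δ) * (8 / (b - a) ^ 2) ≤ L / 2 + K + 1 := by linarith
    have hg2 : 0 < (b - a) ^ 2 := by positivity
    rw [mul_div_assoc', div_le_iff₀ hg2] at h6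
    have h7 : x * (1 - δ) ≤ (1 - δ) * ((1 / 16 + ε) * L * (b - a) ^ 2) := by
      have h8 : (L / 2 + K + 1) / 8 ≤ (1 - δ) * ((1 / 16 + ε) * L) := by
        have h9 : (1 - δ) * ((1 / 16 + ε) * L) = (1 / 16 + ε) * L - δ * (1 / 8 + 2 * ε) * L / 2 := by
          ring
        rw [h9, hδε]
        linarith
      have h9 : (L / 2 + K + 1) * (b - a) ^ 2 ≤ 8 * ((1 - δ) * ((1 / 16 + ε) * L)) * (b - a) ^ 2 := by
        gcongr
        linarith
      nlinarith
    have h8 : 0 < 1 - δ := by linarith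
    rw [mul_comm x (1 - δ)] at h7
    exact le_of_mul_le_mul_left h7 h8
  · intro s' hs'1 hs'2 hs'3 hs'4
    obtain ⟨hse', hsi', hsζ', hsne', hsPh', hsB', hspos', hsa', hsb'⟩ :=
      key s' hs'1 hs'2 hs'3 hs'4
    exact mod_inj hm hab hyab hya hBab ⟨hse'.le, hsi'.le⟩ hsreg hsa' hsb' hsa hsb hs'1 hs'2 hs1 hs2
      (hsPh'.trans hsPh.symm)

end Pool.Agent.ZPD
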